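import Mathlib

set_option autoImplicit false

/-!
# Integers at which a polynomial is small or divisible by a large number
-/

namespace Pool.Agent.H39b

open Finset Polynomial

/-- product of all differences -/
def dif (s : Finset ℤ) (u : Finset ℤ) : ℤ := ∏ i ∈ u, ∏ j ∈ s.erase i, (i - j)

lemma natAbs_prod' (s : Finset ℤ) (f : ℤ → ℤ) : (∏ i ∈ s, f i).natAbs = ∏ i ∈ s, (f i).natAbs :=
  map_prod Int.natAbsHom f s

lemma inner_ne (s : Finset ℤ) (i : ℤ) : ∏ j ∈ s.erase i, (i - j) ≠ 0 := by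
  refine Finset.prod_ne_zero_iff.2 fun j hj => ?_
  rw [Finset.mem_erase] at hj
  exact sub_ne_zero.2 (Ne.symm hj.1)

lemma dif_ne (s u : Finset ℤ) : dif s u ≠ 0 :=
  Finset.prod_ne_zero_iff.2 fun i _ => inner_ne s i

/-- the leading coefficient over the rational numbers -/
lemma lag_rat (P : ℤ[X]) (d : ℕ) (hP : P.natDegree ≤ d) (s : Finset ℤ) (hs : #s = d + 1) :
    (P.coeff d : ℚ) = ∑ i ∈ s, ((P.eval i : ℤ) : ℚ) / ((∏ j ∈ s.erase i, (i - j) : ℤ) : ℚ) := by
  classical
  have hinj : Set.InjOn (fun i : ℤ => (i : ℚ)) (s : Set ℤ) := fun a _ b _ h => by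
    simpa using h
  have hdeg : (P.map (Int.castRingHom ℚ)).degree < #s := by
    rw [hs]
    refine lt_of_le_of_lt degree_map_le ?_
    refine lt_of_le_of_lt (degree_le_natDegree) ?_
    exact_mod_cast Nat.lt_succ_of_le hP
  have h := Lagrange.coeff_eq_sum hinj hdeg
  rw [hs, Nat.add_sub_cancel, coeff_map] at h
  rw [eq_intCast] at h
  rw [h]
  refine Finset.sum_congr rfl fun i _ => ?_
  congr 1
  · rw [eval_map]
    simp [eval₂_at_intCast]
  · push_cast
    rfl

/-- the leading coefficient, without denominators -/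
lemma lag_int (P : ℤ[X]) (d : ℕ) (hP : P.natDegree ≤ d) (s : Finset ℤ) (hs : #s = d + 1) :
    P.coeff d * dif s s = ∑ i ∈ s, P.eval i * dif s (s.erase i) := by
  classical
  have h := lag_rat P d hP s hs
  have h2 : ((P.coeff d * dif s s : ℤ) : ℚ) = ((∑ i ∈ s, P.eval i * dif s (s.erase i) : ℤ) : ℚ) := by
    push_cast
    rw [h, Finset.sum_mul]
    refine Finset.sum_congr rfl fun i hi => ?_
    have h3 : dif s s = (∏ j ∈ s.erase i, (i - j)) * dif s (s.erase i) := by
      unfold dif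
      rw [← Finset.mul_prod_erase s _ hi]
    have h4 : ((∏ j ∈ s.erase i, (i - j) : ℤ) : ℚ) ≠ 0 := by exact_mod_cast inner_ne s i
    rw [h3, Int.cast_mul]
    field_simp
  exact_mod_cast h2

/-- many points in a short interval at which `P` is divisible by `g` -/
lemma arith_bound (P : ℤ[X]) (d : ℕ) (hP : P.natDegree ≤ d) (hc : P.coeff d ≠ 0) (s : Finset ℤ)
    (hs : #s = d + 1) (g l : ℕ) (hg : ∀ t ∈ s, (g : ℤ) ∣ P.eval t) (hl : ∀ i ∈ s, ∀ j ∈ s, |i - j| ≤ l) :
    g ≤ (P.coeff d).natAbs * l ^ (d * (d + 1)) := by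
  classical
  have h1 := lag_int P d hP s hs
  have h2 : (g : ℤ) ∣ P.coeff d * dif s s := by
    rw [h1]
    exact Finset.dvd_sum fun i hi => Dvd.dvd.mul_right (hg i hi) _
  have h3 : P.coeff d * dif s s ≠ 0 := mul_ne_zero hc (dif_ne s s)
  have h4 : g ≤ (P.coeff d * dif s s).natAbs := by
    have := Int.natAbs_dvd_natAbs.2 h2
    rw [Int.natAbs_natCast] at this
    exact Nat.le_of_dvd (Int.natAbs_pos.2 h3) this
  refine h4.trans ?_
  rw [Int.natAbs_mul]
  apply Nat.mul_le_mul_left
  unfold dif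
  rw [natAbs_prod']
  calc ∏ i ∈ s, (∏ j ∈ s.erase i, (i - j)).natAbs ≤ ∏ _i ∈ s, l ^ d := by
        refine Finset.prod_le_prod' fun i hi => ?_
        rw [natAbs_prod']
        calc ∏ j ∈ s.erase i, (i - j).natAbs ≤ ∏ _j ∈ s.erase i, l := by
              refine Finset.prod_le_prod' fun j hj => ?_
              have := hl i hi j (Finset.mem_of_mem_erase hj)
              rw [Int.abs_eq_natAbs] at this
              exact_mod_cast this
          _ = l ^ d := by rw [Finset.prod_const, Finset.card_erase_of_mem hi, hs, Nat.add_sub_cancel]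
    _ = l ^ (d * (d + 1)) := by rw [Finset.prod_const, hs, ← pow_mul]

/-- number of the points in `[-N, N]` at which `P` is divisible by a large number -/
lemma arith_count (P : ℤ[X]) (d : ℕ) (hP : P.natDegree ≤ d) (hc : P.coeff d ≠ 0) (S : Finset ℤ) (N : ℕ)
    (hS : ∀ t ∈ S, |t| ≤ N) (g l : ℕ) (hg : ∀ t ∈ S, (g : ℤ) ∣ P.eval t) (hl : 1 ≤ l)
    (hgl : (P.coeff d).natAbs * l ^ (d * (d + 1)) < g) :
    (#S : ℝ) ≤ d * (2 * N / l + 2) := by
  classical
  have hl0 : (0 : ℤ) < l := by exact_mod_cast hl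
  set I := Finset.Icc (-(N : ℤ) / l) ((N : ℤ) / l) with hI
  have hmaps : ∀ t ∈ S, t / (l : ℤ) ∈ I := by
    intro t ht
    have := hS t ht
    rw [abs_le] at this
    rw [hI, Finset.mem_Icc]
    exact ⟨Int.ediv_le_ediv hl0 this.1, Int.ediv_le_ediv hl0 this.2⟩
  have hfib : ∀ b ∈ I, #{a ∈ S | a / (l : ℤ) = b} ≤ d := by
    intro b _
    by_contra hcon
    push Not at hcon
    obtain ⟨s, hs1, hs2⟩ := Finset.exists_subset_card_eq (show d + 1 ≤ #{a ∈ S | a / (l : ℤ) = b} from hcon)
    have h1 := arith_bound P d hP hc s hs2 g l (fun t ht => hg t (Finset.mem_filter.1 (hs1 ht)).1) (by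
      intro i hi j hj
      have h2 := (Finset.mem_filter.1 (hs1 hi)).2
      have h3 := (Finset.mem_filter.1 (hs1 hj)).2
      have e1 := Int.emod_add_mul_ediv i l
      have e2 := Int.emod_add_mul_ediv j l
      rw [h2] at e1
      rw [h3] at e2
      have m1 := Int.emod_nonneg i hl0.ne'
      have m2 := Int.emod_lt_of_pos i hl0
      have m3 := Int.emod_nonneg j hl0.ne'
      have m4 := Int.emod_lt_of_pos j hl0
      rw [abs_le]
      constructor <;> linarith)
    omega
  have hcard := Finset.card_le_mul_card_image_of_maps_to hmaps d hfib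
  have hIc : (#I : ℝ) ≤ 2 * N / l + 2 := by
    rw [hI, Int.card_Icc]
    have hlr : (0 : ℝ) < l := by exact_mod_cast hl
    have h1 : (((N : ℤ) / l : ℤ) : ℝ) ≤ N / l := by
      have := Int.ediv_mul_le (N : ℤ) hl0.ne'
      rw [le_div_iff₀ hlr]
      exact_mod_cast this
    have h2 : (-(N : ℝ) / l) - 1 ≤ ((-(N : ℤ) / l : ℤ) : ℝ) := by
      have h3 := Int.lt_ediv_add_one_mul_self (-(N : ℤ)) hl0
      have h4 : (-(N : ℝ)) < (((-(N : ℤ) / l : ℤ) : ℝ) + 1) * l := by exact_mod_cast h3
      rw [← div_lt_iff₀ hlr] at h4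
      linarith
    have h5 : 0 ≤ (N : ℤ) / l + 1 - (-(N : ℤ) / l) := by
      have a1 : 0 ≤ (N : ℤ) / l := Int.ediv_nonneg (by positivity) hl0.le
      have a2 : -(N : ℤ) / l ≤ 0 := Int.ediv_nonpos_of_nonpos_of_neg (by simp) hl0
      linarith
    have h6 : ((((N : ℤ) / l + 1 - (-(N : ℤ) / l)).toNat : ℕ) : ℝ) =
        (((N : ℤ) / l + 1 - (-(N : ℤ) / l) : ℤ) : ℝ) := by
      have := Int.toNat_of_nonneg h5
      exact_mod_cast this
    rw [h6]
    push_cast
    have h7 : -(N : ℝ) / l = -(N / l) := by ring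
    have h8 : 2 * (N : ℝ) / l = N / l + N / l := by ring
    push_cast at h1 h2
    linarith
  calc (#S : ℝ) ≤ ((d * #I : ℕ) : ℝ) := by exact_mod_cast hcard
    _ = d * #I := by push_cast; ring
    _ ≤ d * (2 * N / l + 2) := by gcongr

/-- number of the points at which `P` is small -/
lemma arch_count (P : ℤ[X]) (d : ℕ) (hP : P.natDegree ≤ d) (S : Finset ℤ)
    (η : ℝ) (K : ℕ) (hη : ∀ t ∈ S, |((P.eval t : ℤ) : ℝ)| ≤ η) (hK : (d + 1) * η < |(P.coeff d : ℝ)| * K ^ d) :
    #S ≤ d * K := by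
  classical
  by_contra hcon
  push Not at hcon
  -- K > 0 or d = 0
  have hn : ∀ i : Fin (d + 1), (i : ℕ) * K < #S := fun i => by
    have := i.2
    have : (i : ℕ) * K ≤ d * K := Nat.mul_le_mul_right _ (by omega)
    omega
  set e := S.orderEmbOfFin rfl with he
  have hstep : ∀ a b : Fin #S, a ≤ b → ((b : ℕ) : ℤ) - (a : ℕ) ≤ e b - e a := by
    intro a b hab
    obtain ⟨b, hb⟩ := b
    obtain ⟨a, ha⟩ := a
    simp only [Fin.mk_le_mk] at hab
    obtain ⟨m, rfl⟩ := Nat.exists_eq_add_of_le hab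
    induction m with
    | zero => simp
    | succ m ih =>
      have h1 := ih (by omega) (by omega)
      have h2 : e ⟨a + m, by omega⟩ < e ⟨a + (m + 1), hb⟩ := e.strictMono (by simp [Fin.mk_lt_mk])
      simp only at h1 ⊢
      push_cast at h1 ⊢
      linarith
  set t : Fin (d + 1) → ℤ := fun i => e ⟨(i : ℕ) * K, hn i⟩ with ht
  have htS : ∀ i, t i ∈ S := fun i => S.orderEmbOfFin_mem rfl _
  have hsep : ∀ i j : Fin (d + 1), i < j → (K : ℤ) ≤ t j - t i := by
    intro i j hij
    have h1 := hstep ⟨(i : ℕ) * K, hn i⟩ ⟨(j : ℕ) * K, hn j⟩ (by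
      simp only [Fin.mk_le_mk]
      exact Nat.mul_le_mul_right _ (by have : (i : ℕ) < j := hij; omega))
    simp only at h1
    have h2 : ((i : ℕ) + 1) * K ≤ (j : ℕ) * K := Nat.mul_le_mul_right _ (by have : (i : ℕ) < j := hij; omega)
    have h3 : (((i : ℕ) : ℤ) + 1) * K ≤ ((j : ℕ) : ℤ) * K := by exact_mod_cast h2
    push_cast at h1
    show (K : ℤ) ≤ e _ - e _
    linarith
  by_cases hK0 : K = 0
  · subst hK0
    rcases Nat.eq_zero_or_pos d with hd | hd
    · subst hd
      -- P is constant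
      obtain ⟨t0, ht0⟩ := Finset.card_pos.1 (by omega : 0 < #S)
      have h1 := hη t0 ht0
      have h2 : P = C (P.coeff 0) := eq_C_of_natDegree_le_zero hP
      rw [h2] at h1
      simp only [eval_C] at h1
      simp at hK
      linarith
    · have hη0 : 0 ≤ η := by
        obtain ⟨t0, ht0⟩ := Finset.card_pos.1 (by omega : 0 < #S)
        exact (abs_nonneg _).trans (hη t0 ht0)
      have : (0 : ℝ) ^ d = 0 := zero_pow hd.ne'
      simp only [Nat.cast_zero, this, mul_zero] at hK
      have : 0 ≤ ((d : ℝ) + 1) * η := by positivity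
      linarith
  have hKpos : (0 : ℝ) < K := by exact_mod_cast Nat.pos_of_ne_zero hK0
  have hinj : Function.Injective t := by
    intro i j hij
    rcases lt_trichotomy i j with h | h | h
    · have := hsep i j h
      rw [hij, sub_self] at this
      have : (K : ℤ) ≤ 0 := this
      omega
    · exact h
    · have := hsep j i h
      rw [hij, sub_self] at this
      have : (K : ℤ) ≤ 0 := this
      omega
  set s := Finset.univ.image t with hs
  have hscard : #s = d + 1 := by
    rw [hs, Finset.card_image_of_injective _ hinj, Finset.card_univ, Fintype.card_fin]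
  have hlag := lag_rat P d hP s hscard
  have hlag' : (P.coeff d : ℝ) = ∑ i ∈ s, ((P.eval i : ℤ) : ℝ) / ((∏ j ∈ s.erase i, (i - j) : ℤ) : ℝ) := by
    exact_mod_cast congrArg (fun q : ℚ => (q : ℝ)) hlag
  have hprod : ∀ i ∈ s, (K : ℝ) ^ d ≤ |((∏ j ∈ s.erase i, (i - j) : ℤ) : ℝ)| := by
    intro i hi
    have hcard : #(s.erase i) = d := by rw [Finset.card_erase_of_mem hi, hscard, Nat.add_sub_cancel]
    push_cast
    rw [Finset.abs_prod, ← hcard, ← Finset.prod_const]
    refine Finset.prod_le_prod (fun _ _ => hKpos.le) fun j hj => ?_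
    rw [Finset.mem_erase] at hj
    rw [hs, Finset.mem_image] at hi
    obtain ⟨i', _, rfl⟩ := hi
    obtain ⟨hj1, hj2⟩ := hj
    rw [hs, Finset.mem_image] at hj2
    obtain ⟨j', _, rfl⟩ := hj2
    rcases lt_trichotomy i' j' with h | h | h
    · have h1 := hsep i' j' h
      rw [abs_sub_comm]
      refine le_trans ?_ (le_abs_self _)
      exact_mod_cast h1
    · exact absurd (by rw [h]) hj1
    · have h1 := hsep j' i' h
      refine le_trans ?_ (le_abs_self _)
      exact_mod_cast h1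
  have hbound : |(P.coeff d : ℝ)| ≤ (d + 1) * η / K ^ d := by
    rw [hlag']
    calc |∑ i ∈ s, ((P.eval i : ℤ) : ℝ) / ((∏ j ∈ s.erase i, (i - j) : ℤ) : ℝ)|
        ≤ ∑ i ∈ s, |((P.eval i : ℤ) : ℝ) / ((∏ j ∈ s.erase i, (i - j) : ℤ) : ℝ)| := Finset.abs_sum_le_sum_abs _ _
      _ ≤ ∑ _i ∈ s, η / K ^ d := by
          refine Finset.sum_le_sum fun i hi => ?_
          rw [abs_div]
          have hiS : i ∈ S := by
            rw [hs, Finset.mem_image] at hi
            obtain ⟨i', _, rfl⟩ := hi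
            exact htS i'
          exact div_le_div₀ ((abs_nonneg _).trans (hη i hiS)) (hη i hiS) (by positivity) (hprod i hi)
      _ = (d + 1) * η / K ^ d := by
          rw [Finset.sum_const, hscard, nsmul_eq_mul]
          push_cast
          ring
  rw [le_div_iff₀ (by positivity)] at hbound
  linarith

end Pool.Agent.H39b
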