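import Mathlib
import Pool.Agent.H39b.Lag

set_option autoImplicit false

/-!
# Points of a line at which all values are small after division by a common divisor
-/

namespace Pool.Agent.H39b

open Finset Polynomial

/-- the saving for degree `d` -/
noncomputable def sav (d : ℕ) : ℝ := 1 / (2 * (d * (d + 1)))

lemma sav_pos {d : ℕ} (hd : 1 ≤ d) : 0 < sav d := by
  unfold sav
  have : (1 : ℝ) ≤ d := by exact_mod_cast hd
  positivity

lemma sav_le {d : ℕ} (hd : 1 ≤ d) : sav d ≤ 1 / (2 * d) := by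
  unfold sav
  have : (1 : ℝ) ≤ d := by exact_mod_cast hd
  apply one_div_le_one_div_of_le (by positivity)
  nlinarith

lemma aux3 (d κ Z : ℝ) (hd : 1 ≤ d) (hκ : 1 ≤ κ) (hZ : 0 ≤ Z) :
    d * (2 * (d + 1) * Z + 1) ≤ (20 * κ * (d + 1) ^ 2) * (Z + 1) := by
  have e0' : 20 * 1 * (d + 1) ^ 2 ≤ 20 * κ * (d + 1) ^ 2 := by gcongr
  have h1 := mul_nonneg hZ (show 0 ≤ d by linarith)
  have h2 := mul_nonneg h1 (show 0 ≤ d by linarith)
  have e1 : d * (2 * (d + 1) * Z + 1) ≤ (20 * 1 * (d + 1) ^ 2) * (Z + 1) := by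
    nlinarith
  exact e1.trans (mul_le_mul_of_nonneg_right e0' (by linarith))

theorem good_count (d : ℕ) (hd : 1 ≤ d) (P : ℤ[X]) (hP : P.natDegree ≤ d) (hc : P.coeff d ≠ 0)
    (S : Finset ℤ) (N g : ℕ) (a : ℝ) (hN : 1 ≤ N) (ha : 1 ≤ a)
    (hS : ∀ t ∈ S, |t| ≤ N) (hg : ∀ t ∈ S, (g : ℤ) ∣ P.eval t)
    (hv : ∀ t ∈ S, |((P.eval t : ℤ) : ℝ)| ≤ g * ((N : ℝ) ^ d / a)) :
    (#S : ℝ) ≤ (20 * (P.coeff d).natAbs * (d + 1) ^ 2) * (N * a ^ (-sav d) + 1) := by
  classical
  set κ : ℕ := (P.coeff d).natAbs with hκ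
  have hκ1 : 1 ≤ κ := Int.natAbs_pos.2 hc
  have hκr : (1 : ℝ) ≤ κ := by exact_mod_cast hκ1
  have hdr : (1 : ℝ) ≤ d := by exact_mod_cast hd
  have hNr : (1 : ℝ) ≤ N := by exact_mod_cast hN
  have ha0 : 0 < a := by linarith
  have hX0 : 0 < a ^ (-sav d) := Real.rpow_pos_of_pos ha0 _
  have hs0 := sav_pos hd
  set E : ℕ := d * (d + 1) with hE
  have hE1 : 1 ≤ E := by rw [hE]; nlinarith
  have hEr : (1 : ℝ) ≤ E := by exact_mod_cast hE1
  have hsE : sav d = 1 / 2 * (1 / E) := by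
    unfold sav
    rw [hE]
    push_cast
    field_simp
  have hsq : Real.sqrt a = a ^ (1 / 2 : ℝ) := Real.sqrt_eq_rpow a
  have hNX : 0 ≤ (N : ℝ) * a ^ (-sav d) := by positivity
  rcases le_or_gt (Real.sqrt a) g with hcase | hcase
  · rcases le_or_gt 1 (Real.sqrt a / (2 * κ)) with h1 | h1
    · -- arithmetic case
      set x : ℝ := (Real.sqrt a / (2 * κ)) ^ (1 / E : ℝ) with hx
      have hx1 : 1 ≤ x := Real.one_le_rpow h1 (by positivity)
      set l : ℕ := ⌊x⌋₊ with hl
      have hl1 : 1 ≤ l := Nat.le_floor (by simpa using hx1)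
      have hlx : (l : ℝ) ≤ x := Nat.floor_le (by linarith)
      have hxl : x / 2 ≤ l := by
        have := Nat.lt_floor_add_one x
        have h2 : (1 : ℝ) ≤ l := by exact_mod_cast hl1
        linarith
      have hlE : (κ : ℝ) * (l : ℝ) ^ E < g := by
        have h2 : (l : ℝ) ^ E ≤ Real.sqrt a / (2 * κ) := by
          calc (l : ℝ) ^ E ≤ x ^ E := pow_le_pow_left₀ (Nat.cast_nonneg _) hlx _
            _ = Real.sqrt a / (2 * κ) := by
                rw [hx, ← Real.rpow_natCast, ← Real.rpow_mul (by linarith)]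
                rw [one_div_mul_cancel (by positivity), Real.rpow_one]
        have h3 : (κ : ℝ) * (Real.sqrt a / (2 * κ)) = Real.sqrt a / 2 := by field_simp
        have h4 : 0 < Real.sqrt a := Real.sqrt_pos.2 ha0
        calc (κ : ℝ) * (l : ℝ) ^ E ≤ κ * (Real.sqrt a / (2 * κ)) := by gcongr
          _ = Real.sqrt a / 2 := h3
          _ < Real.sqrt a := by linarith
          _ ≤ g := hcase
      have h5 := arith_count P d hP hc S N hS g l hg hl1 (by exact_mod_cast hlE)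
      have h6 : (1 : ℝ) / l ≤ 4 * κ * a ^ (-sav d) := by
        have h7 : (1 : ℝ) / l ≤ 2 / x := by
          rw [div_le_div_iff₀ (by linarith) (by linarith)]
          linarith
        have h8 : 1 / x = (2 * κ) ^ (1 / E : ℝ) * a ^ (-sav d) := by
          rw [hx, Real.div_rpow (Real.sqrt_nonneg _) (by positivity), hsq, ← Real.rpow_mul ha0.le,
            ← hsE, Real.rpow_neg ha0.le]
          field_simp
        have h9 : (2 * (κ : ℝ)) ^ (1 / E : ℝ) ≤ 2 * κ := by
          calc (2 * (κ : ℝ)) ^ (1 / E : ℝ) ≤ (2 * (κ : ℝ)) ^ (1 : ℝ) :=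
                Real.rpow_le_rpow_of_exponent_le (by linarith) (by
                  rw [div_le_one (by linarith)]; exact hEr)
            _ = 2 * κ := Real.rpow_one _
        calc (1 : ℝ) / l ≤ 2 / x := h7
          _ = 2 * (1 / x) := by ring
          _ = 2 * ((2 * κ) ^ (1 / E : ℝ) * a ^ (-sav d)) := by rw [h8]
          _ ≤ 2 * ((2 * κ) * a ^ (-sav d)) := by gcongr
          _ = _ := by ring
      have h10 : 2 * (N : ℝ) / l ≤ 8 * κ * (N * a ^ (-sav d)) := by
        calc 2 * (N : ℝ) / l = 2 * N * (1 / l) := by ring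
          _ ≤ 2 * N * (4 * κ * a ^ (-sav d)) := by gcongr
          _ = _ := by ring
      calc (#S : ℝ) ≤ d * (2 * N / l + 2) := h5
        _ ≤ d * (8 * κ * (N * a ^ (-sav d)) + 2) := by gcongr
        _ ≤ (20 * κ * (d + 1) ^ 2) * (N * a ^ (-sav d) + 1) := by
            have e1 : (d : ℝ) * (8 * κ) ≤ 20 * κ * (d + 1) ^ 2 := by nlinarith [mul_pos (show (0:ℝ) < κ by linarith) (show (0:ℝ) < d by linarith)]
            have e2 : (d : ℝ) * 2 ≤ 20 * κ * (d + 1) ^ 2 := by nlinarith [mul_pos (show (0:ℝ) < κ by linarith) (show (0:ℝ) < d by linarith)]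
            nlinarith
    · -- small a
      have h2 : a ^ (sav d) ≤ 2 * κ := by
        rw [div_lt_one (by positivity)] at h1
        calc a ^ (sav d) = (Real.sqrt a) ^ (1 / E : ℝ) := by
              rw [hsq, ← Real.rpow_mul ha0.le, hsE]
          _ ≤ (2 * κ) ^ (1 / E : ℝ) := Real.rpow_le_rpow (Real.sqrt_nonneg _) h1.le (by positivity)
          _ ≤ (2 * (κ : ℝ)) ^ (1 : ℝ) :=
                Real.rpow_le_rpow_of_exponent_le (by linarith) (by
                  rw [div_le_one (by linarith)]; exact hEr)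
          _ = 2 * κ := Real.rpow_one _
      have h3 : 1 ≤ 2 * κ * a ^ (-sav d) := by
        rw [Real.rpow_neg ha0.le, ← div_eq_mul_inv, le_div_iff₀ (Real.rpow_pos_of_pos ha0 _), one_mul]
        exact h2
      have h4 : #S ≤ 2 * N + 1 := by
        have h5 : S ⊆ Finset.Icc (-(N : ℤ)) N := fun t ht => by
          rw [Finset.mem_Icc]
          exact abs_le.1 (hS t ht)
        have h6 := Finset.card_le_card h5
        rw [Int.card_Icc] at h6
        omega
      have h5 : (#S : ℝ) ≤ 3 * N := by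
        have : (#S : ℝ) ≤ 2 * N + 1 := by exact_mod_cast h4
        linarith
      calc (#S : ℝ) ≤ 3 * N := h5
        _ ≤ 3 * N * (2 * κ * a ^ (-sav d)) := by
            have : (0 : ℝ) ≤ 3 * N := by positivity
            nlinarith
        _ = 6 * κ * (N * a ^ (-sav d)) := by ring
        _ ≤ (20 * κ * (d + 1) ^ 2) * (N * a ^ (-sav d) + 1) := by
            have e1 : 6 * (κ : ℝ) ≤ 20 * κ * (d + 1) ^ 2 := by nlinarith [mul_pos (show (0:ℝ) < κ by linarith) (show (0:ℝ) < d by linarith)]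
            have e2 : 0 ≤ 20 * (κ : ℝ) * (d + 1) ^ 2 := by positivity
            nlinarith
  · -- archimedean case
    set y : ℝ := 2 * (d + 1) * (N * a ^ (-(1 / (2 * d)) : ℝ)) with hy
    have hy0 : 0 < y := by
      have := Real.rpow_pos_of_pos ha0 (-(1 / (2 * d)) : ℝ)
      positivity
    set K : ℕ := ⌊y⌋₊ + 1 with hK
    have hKy : y < K := by rw [hK]; push_cast; exact Nat.lt_floor_add_one y
    have hKy2 : (K : ℝ) ≤ y + 1 := by
      rw [hK]; push_cast
      linarith [Nat.floor_le hy0.le]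
    have hyd : y ^ d = (2 * (d + 1)) ^ d * ((N : ℝ) ^ d * (Real.sqrt a)⁻¹) := by
      rw [hy, mul_pow (2 * ((d : ℝ) + 1)), mul_pow (N : ℝ)]
      congr 2
      rw [← Real.rpow_natCast, ← Real.rpow_mul ha0.le, hsq, ← Real.rpow_neg ha0.le]
      congr 1
      field_simp
    have h2d : (2 * ((d : ℝ) + 1)) ≤ (2 * (d + 1)) ^ d := by
      calc (2 * ((d : ℝ) + 1)) = (2 * (d + 1)) ^ 1 := (pow_one _).symm
        _ ≤ (2 * (d + 1)) ^ d := pow_le_pow_right₀ (by linarith) hd
    have hsa : 0 < Real.sqrt a := Real.sqrt_pos.2 ha0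
    have hη : ∀ t ∈ S, |((P.eval t : ℤ) : ℝ)| ≤ (N : ℝ) ^ d * (Real.sqrt a)⁻¹ := by
      intro t ht
      refine (hv t ht).trans ?_
      calc (g : ℝ) * ((N : ℝ) ^ d / a) ≤ Real.sqrt a * ((N : ℝ) ^ d / a) := by gcongr
        _ = (N : ℝ) ^ d * (Real.sqrt a / a) := by ring
        _ = _ := by rw [Real.sqrt_div_self', one_div]
    have hcr : |(P.coeff d : ℝ)| = κ := by
      rw [hκ, Nat.cast_natAbs, Int.cast_abs]
    have h3 := arch_count P d hP S _ K hη (by
      rw [hcr]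
      have e0 : 0 < (N : ℝ) ^ d * (Real.sqrt a)⁻¹ := by positivity
      calc ((d : ℝ) + 1) * ((N : ℝ) ^ d * (Real.sqrt a)⁻¹) <
          (2 * (d + 1)) * ((N : ℝ) ^ d * (Real.sqrt a)⁻¹) :=
            mul_lt_mul_of_pos_right (by linarith) e0
        _ ≤ (2 * (d + 1)) ^ d * ((N : ℝ) ^ d * (Real.sqrt a)⁻¹) :=
            mul_le_mul_of_nonneg_right h2d e0.le
        _ = y ^ d := hyd.symm
        _ ≤ (K : ℝ) ^ d := pow_le_pow_left₀ hy0.le hKy.le _
        _ ≤ κ * (K : ℝ) ^ d := by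
            have : 0 ≤ (K : ℝ) ^ d := by positivity
            exact le_mul_of_one_le_left this hκr)
    have h4 : y ≤ 2 * (d + 1) * (N * a ^ (-sav d)) := by
      rw [hy]
      have : a ^ (-(1 / (2 * d)) : ℝ) ≤ a ^ (-sav d) :=
        Real.rpow_le_rpow_of_exponent_le ha (by linarith [sav_le hd])
      gcongr
    calc (#S : ℝ) ≤ ((d * K : ℕ) : ℝ) := by exact_mod_cast h3
      _ = d * K := by push_cast; ring
      _ ≤ d * (2 * (d + 1) * (N * a ^ (-sav d)) + 1) := by
          gcongr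
          linarith
      _ ≤ (20 * κ * (d + 1) ^ 2) * (N * a ^ (-sav d) + 1) := by
          exact aux3 _ _ _ hdr hκr hNX

end Pool.Agent.H39b
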