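import Mathlib

set_option autoImplicit false

/-!
# Elimination of one variable from forms without common factor
-/

namespace Pool.Agent.H39b

open MvPolynomial Finset
open scoped nonZeroDivisors

variable {n : ℕ}

/-- the shear `x_(j+1) ↦ x_(j+1) + v_j x_0` -/
noncomputable def shear (v : Fin n → ℤ) :
    MvPolynomial (Fin (n + 1)) ℤ →ₐ[ℤ] MvPolynomial (Fin (n + 1)) ℤ :=
  aeval (Fin.cons (X 0) (fun j => X j.succ + C (v j) * X 0))

lemma shear_shear (v : Fin n → ℤ) (q : MvPolynomial (Fin (n + 1)) ℤ) :
    shear (-v) (shear v q) = q := by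
  have h : (shear (-v)).comp (shear v) = AlgHom.id ℤ (MvPolynomial (Fin (n + 1)) ℤ) := by
    apply MvPolynomial.algHom_ext
    intro i
    refine Fin.cases ?_ (fun j => ?_) i
    · simp [shear]
    · simp [shear]
  exact congrArg (fun φ : MvPolynomial (Fin (n + 1)) ℤ →ₐ[ℤ] MvPolynomial (Fin (n + 1)) ℤ => φ q) h

lemma eval_shear (v : Fin n → ℤ) (q : MvPolynomial (Fin (n + 1)) ℤ) (t : ℤ) (x : Fin n → ℤ) :
    eval (Fin.cons t x : Fin (n + 1) → ℤ) (shear v q) =
      eval (Fin.cons t (fun j => x j + v j * t) : Fin (n + 1) → ℤ) q := by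
  have h : ((aeval (Fin.cons t x : Fin (n + 1) → ℤ)).comp (shear v) :
      MvPolynomial (Fin (n + 1)) ℤ →ₐ[ℤ] ℤ) = aeval (Fin.cons t (fun j => x j + v j * t) : Fin (n + 1) → ℤ) := by
    apply MvPolynomial.algHom_ext
    intro i
    refine Fin.cases ?_ (fun j => ?_) i
    · simp [shear]
    · simp [shear]
  have h2 := congrArg (fun φ : MvPolynomial (Fin (n + 1)) ℤ →ₐ[ℤ] ℤ => φ q) h
  simpa [MvPolynomial.aeval_eq_eval] using h2

/-- a polynomial in `t = x_0` whose coefficients are polynomials in the other variables -/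
noncomputable def sh (v : Fin n → ℤ) (q : MvPolynomial (Fin (n + 1)) ℤ) :
    Polynomial (MvPolynomial (Fin n) ℤ) := finSuccEquiv ℤ n (shear v q)

lemma eval_sh (v : Fin n → ℤ) (q : MvPolynomial (Fin (n + 1)) ℤ) (t : ℤ) (x : Fin n → ℤ) :
    Polynomial.eval t (Polynomial.map (eval x) (sh v q)) =
      eval (Fin.cons t (fun j => x j + v j * t) : Fin (n + 1) → ℤ) q := by
  unfold sh
  rw [← eval_eq_eval_mv_eval', eval_shear]

lemma sh_mul (v : Fin n → ℤ) (p q : MvPolynomial (Fin (n + 1)) ℤ) : sh v (p * q) = sh v p * sh v q := by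
  unfold sh
  rw [map_mul, map_mul]

/-- the inverse -/
noncomputable def ish (v : Fin n → ℤ) (q : Polynomial (MvPolynomial (Fin n) ℤ)) :
    MvPolynomial (Fin (n + 1)) ℤ := shear (-v) ((finSuccEquiv ℤ n).symm q)

lemma ish_sh (v : Fin n → ℤ) (q : MvPolynomial (Fin (n + 1)) ℤ) : ish v (sh v q) = q := by
  unfold ish sh
  rw [AlgEquiv.symm_apply_apply, shear_shear]

lemma sh_ish (v : Fin n → ℤ) (q : Polynomial (MvPolynomial (Fin n) ℤ)) : sh v (ish v q) = q := by
  unfold ish sh
  have := shear_shear (-v) ((finSuccEquiv ℤ n).symm q)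
  rw [neg_neg] at this
  rw [this, AlgEquiv.apply_symm_apply]

lemma ish_mul (v : Fin n → ℤ) (p q : Polynomial (MvPolynomial (Fin n) ℤ)) :
    ish v (p * q) = ish v p * ish v q := by
  unfold ish
  rw [map_mul, map_mul]

/-- elimination -/
theorem elim {ι : Type*} [Fintype ι] (f : ι → MvPolynomial (Fin (n + 1)) ℤ) (hne : ∃ i, f i ≠ 0)
    (hcop : ∀ g : MvPolynomial (Fin (n + 1)) ℤ, (∀ i, g ∣ f i) → g.totalDegree = 0) (v : Fin n → ℤ) :
    ∃ (R : MvPolynomial (Fin n) ℤ) (u : ι → Polynomial (MvPolynomial (Fin n) ℤ)), R ≠ 0 ∧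
      Polynomial.C R = ∑ i, u i * sh v (f i) := by
  classical
  set A := MvPolynomial (Fin n) ℤ with hA
  set K := FractionRing A with hK
  have hinj : Function.Injective (algebraMap A K) := IsFractionRing.injective A K
  have hinjP : Function.Injective (Polynomial.map (algebraMap A K)) := Polynomial.map_injective _ hinj
  set B : ι → Polynomial K := fun i => (sh v (f i)).map (algebraMap A K) with hB
  obtain ⟨h, hh⟩ := (IsPrincipalIdealRing.principal (Ideal.span (Set.range B))).principal
  have hI : Ideal.span (Set.range B) = Ideal.span {h} := by rw [hh]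
  have hdvd : ∀ i, h ∣ B i := fun i => by
    rw [← Ideal.mem_span_singleton, ← hI]
    exact Ideal.subset_span ⟨i, rfl⟩
  obtain ⟨i0, hi0⟩ := hne
  have hsh0 : sh v (f i0) ≠ 0 := by
    intro h0
    apply hi0
    rw [← ish_sh v (f i0), h0]
    unfold ish
    rw [map_zero, map_zero]
  have hB0 : B i0 ≠ 0 := by
    intro h0
    apply hsh0
    apply hinjP
    rw [Polynomial.map_zero]
    exact h0
  have hh0 : h ≠ 0 := by
    rintro rfl
    exact hB0 (zero_dvd_iff.1 (hdvd i0))
  have hunit : IsUnit h := by
    letI : NormalizedGCDMonoid A := Classical.arbitrary _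
    obtain ⟨b, hb, hb2⟩ := IsLocalization.integerNormalization_spec A⁰ h
    set h1 := IsLocalization.integerNormalization A⁰ h with hh1
    have hb0 : algebraMap A K b ≠ 0 := by
      intro h0
      apply nonZeroDivisors.ne_zero hb
      apply hinj
      rw [h0, map_zero]
    have hb3 : h1.map (algebraMap A K) = Polynomial.C (algebraMap A K b) * h := by
      rw [hb2, Algebra.smul_def]
      rfl
    have h10 : h1 ≠ 0 := by
      intro h0
      rw [h0, Polynomial.map_zero] at hb3
      exact mul_ne_zero (Polynomial.C_ne_zero.2 hb0) hh0 hb3.symm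
    set h2 := h1.primPart with hh2
    have hc0 : algebraMap A K h1.content ≠ 0 := by
      intro h0
      apply h10
      rw [← Polynomial.content_eq_zero_iff]
      apply hinj
      rw [h0, map_zero]
    have h12 : h1.map (algebraMap A K) =
        Polynomial.C (algebraMap A K h1.content) * h2.map (algebraMap A K) := by
      conv_lhs => rw [h1.eq_C_content_mul_primPart]
      rw [Polynomial.map_mul, Polynomial.map_C]
    have hass : h2.map (algebraMap A K) ∣ h := by
      refine ⟨Polynomial.C ((algebraMap A K h1.content) * (algebraMap A K b)⁻¹), ?_⟩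
      have e1 : Polynomial.C (algebraMap A K b) * h =
          Polynomial.C (algebraMap A K h1.content) * h2.map (algebraMap A K) := by rw [← hb3, h12]
      have e2 : h = Polynomial.C (algebraMap A K b)⁻¹ * (Polynomial.C (algebraMap A K b) * h) := by
        rw [← mul_assoc, ← Polynomial.C_mul, inv_mul_cancel₀ hb0, Polynomial.C_1, one_mul]
      rw [e2, e1, Polynomial.C_mul]
      ring
    have hass2 : h ∣ h2.map (algebraMap A K) := by
      refine ⟨Polynomial.C ((algebraMap A K h1.content)⁻¹ * (algebraMap A K b)), ?_⟩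
      have e1 : Polynomial.C (algebraMap A K b) * h =
          Polynomial.C (algebraMap A K h1.content) * h2.map (algebraMap A K) := by rw [← hb3, h12]
      have e2 : h2.map (algebraMap A K) = Polynomial.C (algebraMap A K h1.content)⁻¹ *
          (Polynomial.C (algebraMap A K h1.content) * h2.map (algebraMap A K)) := by
        rw [← mul_assoc, ← Polynomial.C_mul, inv_mul_cancel₀ hc0, Polynomial.C_1, one_mul]
      rw [e2, ← e1, Polynomial.C_mul]
      ring
    have hprim : h2.IsPrimitive := h1.isPrimitive_primPart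
    have hd2 : ∀ i, h2 ∣ sh v (f i) := fun i =>
      hprim.dvd_of_fraction_map_dvd_fraction_map (K := K) (hass.trans (hdvd i))
    have hg : ∀ i, ish v h2 ∣ f i := by
      intro i
      obtain ⟨q, hq⟩ := hd2 i
      refine ⟨ish v q, ?_⟩
      rw [← ish_mul, ← hq, ish_sh]
    have hdeg := hcop _ hg
    obtain ⟨c, hc⟩ : ∃ c : ℤ, ish v h2 = C c := ⟨_, totalDegree_eq_zero_iff_eq_C.1 hdeg⟩
    have hh2c : h2 = Polynomial.C (C c) := by
      rw [← sh_ish v h2, hc]
      unfold sh shear
      simp
    have h20 : h2 ≠ 0 := hprim.ne_zero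
    have hc1 : algebraMap A K (C c) ≠ 0 := by
      intro h0
      apply h20
      rw [hh2c]
      have : (C c : A) = 0 := by
        apply hinj
        rw [h0, map_zero]
      rw [this, Polynomial.C_0]
    have hu2 : IsUnit (h2.map (algebraMap A K)) := by
      rw [hh2c, Polynomial.map_C]
      exact Polynomial.isUnit_C.2 (isUnit_iff_ne_zero.2 hc1)
    exact isUnit_of_dvd_unit hass2 hu2
  have htop : (1 : Polynomial K) ∈ Ideal.span (Set.range B) := by
    rw [hI, Ideal.span_singleton_eq_top.2 hunit]
    exact Submodule.mem_top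
  rw [Ideal.mem_span_range_iff_exists_fun] at htop
  obtain ⟨c, hc⟩ := htop
  -- clear the denominators
  choose b hb hb2 using fun i => IsLocalization.integerNormalization_spec A⁰ (c i)
  refine ⟨∏ i, b i, fun i => Polynomial.C (∏ j ∈ univ.erase i, b j) *
    IsLocalization.integerNormalization A⁰ (c i), ?_, ?_⟩
  · exact Finset.prod_ne_zero_iff.2 fun i _ => nonZeroDivisors.ne_zero (hb i)
  · apply hinjP
    rw [Polynomial.map_C, Polynomial.map_sum]
    have e1 : ∀ i, (Polynomial.C (∏ j ∈ univ.erase i, b j) *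
        IsLocalization.integerNormalization A⁰ (c i) * sh v (f i)).map (algebraMap A K) =
        Polynomial.C (algebraMap A K (∏ i, b i)) * (c i * B i) := by
      intro i
      rw [Polynomial.map_mul, Polynomial.map_mul, Polynomial.map_C, hb2 i, Algebra.smul_def,
        ← Finset.mul_prod_erase univ b (Finset.mem_univ i), map_mul, Polynomial.C_mul]
      have : (algebraMap A (Polynomial K)) (b i) = Polynomial.C (algebraMap A K (b i)) := rfl
      rw [this, hB]
      ring
    rw [Finset.sum_congr rfl fun i _ => e1 i, ← Finset.mul_sum, hc, mul_one]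

end Pool.Agent.H39b
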