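import Mathlib
import Pool.Agent.H39b.Elim

set_option autoImplicit false

/-!
# Leading coefficients and sizes
-/

namespace Pool.Agent.H39b

open MvPolynomial Finset

variable {n : ℕ}

lemma prod_lead {m : ℕ} (q : Fin m → Polynomial ℤ) (hq : ∀ i, (q i).natDegree ≤ 1) (e : Fin m → ℕ)
    (s : Finset (Fin m)) : (∏ i ∈ s, q i ^ e i).natDegree ≤ ∑ i ∈ s, e i ∧
      (∏ i ∈ s, q i ^ e i).coeff (∑ i ∈ s, e i) = ∏ i ∈ s, (q i).coeff 1 ^ e i := by
  classical
  induction s using Finset.induction_on with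
  | empty => simp
  | insert i s hi ih =>
    rw [Finset.prod_insert hi, Finset.sum_insert hi, Finset.prod_insert hi]
    have h1 : (q i ^ e i).natDegree ≤ e i := by
      refine Polynomial.natDegree_pow_le.trans ?_
      calc e i * (q i).natDegree ≤ e i * 1 := Nat.mul_le_mul_left _ (hq i)
        _ = e i := mul_one _
    have h2 : (q i ^ e i).coeff (e i) = (q i).coeff 1 ^ e i := by
      have := Polynomial.coeff_pow_of_natDegree_le (m := e i) (hq i)
      rwa [mul_one] at this
    refine ⟨Polynomial.natDegree_mul_le.trans (add_le_add h1 ih.1), ?_⟩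
    rw [Polynomial.coeff_mul_add_eq_of_natDegree_le h1 ih.1, h2, ih.2]

/-- specialisation to a line -/
noncomputable def line (v x : Fin n → ℤ) : MvPolynomial (Fin (n + 1)) ℤ →ₐ[ℤ] Polynomial ℤ :=
  aeval (Fin.cons Polynomial.X (fun j => Polynomial.C (x j) + Polynomial.C (v j) * Polynomial.X))

lemma eval_line (v x : Fin n → ℤ) (t : ℤ) (q : MvPolynomial (Fin (n + 1)) ℤ) :
    (line v x q).eval t = eval (Fin.cons t (fun j => x j + v j * t) : Fin (n + 1) → ℤ) q := by
  have h : ((Polynomial.aeval t).comp (line v x) :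
      MvPolynomial (Fin (n + 1)) ℤ →ₐ[ℤ] ℤ) = aeval (Fin.cons t (fun j => x j + v j * t) : Fin (n + 1) → ℤ) := by
    apply MvPolynomial.algHom_ext
    intro i
    refine Fin.cases ?_ (fun j => ?_) i
    · simp [line]
    · simp [line]
  have h2 := congrArg (fun φ : MvPolynomial (Fin (n + 1)) ℤ →ₐ[ℤ] ℤ => φ q) h
  simpa [MvPolynomial.aeval_eq_eval, Polynomial.coe_aeval_eq_eval] using h2

lemma line_lead (v x : Fin n → ℤ) (d : ℕ) (f : MvPolynomial (Fin (n + 1)) ℤ) (hf : f.IsHomogeneous d) :
    (line v x f).natDegree ≤ d ∧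
      (line v x f).coeff d = eval (Fin.cons 1 v : Fin (n + 1) → ℤ) f := by
  classical
  set q : Fin (n + 1) → Polynomial ℤ :=
    Fin.cons Polynomial.X (fun j => Polynomial.C (x j) + Polynomial.C (v j) * Polynomial.X) with hq
  have hq1 : ∀ i, (q i).natDegree ≤ 1 := by
    intro i
    refine Fin.cases ?_ (fun j => ?_) i
    · simp [hq]
    · simp only [hq, Fin.cons_succ]
      compute_degree
  have hq2 : ∀ i, (q i).coeff 1 = (Fin.cons 1 v : Fin (n + 1) → ℤ) i := by
    intro i
    refine Fin.cases ?_ (fun j => ?_) i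
    · simp [hq]
    · simp only [hq, Fin.cons_succ]
      rw [Polynomial.coeff_add, Polynomial.coeff_C_mul, Polynomial.coeff_X_one, Polynomial.coeff_C,
        if_neg one_ne_zero, zero_add, mul_one]
  have hexp : line v x f = ∑ m ∈ f.support, Polynomial.C (f.coeff m) * ∏ i, q i ^ m i := by
    unfold line
    rw [MvPolynomial.aeval_def, MvPolynomial.eval₂_eq']
    refine Finset.sum_congr rfl fun m _ => ?_
    rfl
  have hm : ∀ m ∈ f.support, ∑ i, m i = d := by
    intro m hm
    have h1 := hf (mem_support_iff.1 hm)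
    rw [Finsupp.weight_apply, Finsupp.sum_fintype _ _ (by simp)] at h1
    simpa using h1
  constructor
  · rw [hexp]
    apply Polynomial.natDegree_sum_le_of_forall_le
    intro m hm'
    refine (Polynomial.natDegree_C_mul_le _ _).trans ?_
    rw [← hm m hm']
    exact (prod_lead q hq1 m univ).1
  · rw [hexp, Polynomial.finsetSum_coeff, MvPolynomial.eval_eq']
    refine Finset.sum_congr rfl fun m hm' => ?_
    rw [Polynomial.coeff_C_mul]
    congr 1
    have h2 := (prod_lead q hq1 m univ).2
    rw [hm m hm'] at h2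
    rw [h2]
    exact Finset.prod_congr rfl fun i _ => by rw [hq2 i]

/-- a good direction -/
lemma exists_dir (d : ℕ) (f : MvPolynomial (Fin (n + 1)) ℤ) (hf : f.IsHomogeneous d) (hf0 : f ≠ 0) :
    ∃ v : Fin n → ℤ, eval (Fin.cons 1 v : Fin (n + 1) → ℤ) f ≠ 0 := by
  classical
  by_contra hcon
  push Not at hcon
  apply hf0
  -- the dehomogenisation vanishes
  set q : MvPolynomial (Fin n) ℤ := aeval (Fin.cons 1 (fun j => X j) : Fin (n + 1) → MvPolynomial (Fin n) ℤ) f with hq
  have hq0 : q = 0 := by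
    apply MvPolynomial.funext
    intro v
    rw [map_zero, ← hcon v, hq]
    have h : ((aeval v).comp (aeval (Fin.cons 1 (fun j => X j) : Fin (n + 1) → MvPolynomial (Fin n) ℤ)) :
        MvPolynomial (Fin (n + 1)) ℤ →ₐ[ℤ] ℤ) = aeval (Fin.cons 1 v : Fin (n + 1) → ℤ) := by
      apply MvPolynomial.algHom_ext
      intro i
      refine Fin.cases ?_ (fun j => ?_) i
      · simp
      · simp
    have h2 := congrArg (fun φ : MvPolynomial (Fin (n + 1)) ℤ →ₐ[ℤ] ℤ => φ f) h
    simpa [MvPolynomial.aeval_eq_eval] using h2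
  -- vanishing over the rational numbers
  have hrat : ∀ y : Fin n → ℚ, aeval (Fin.cons 1 y : Fin (n + 1) → ℚ) f = 0 := by
    intro y
    have h : ((aeval y).comp (aeval (Fin.cons 1 (fun j => X j) : Fin (n + 1) → MvPolynomial (Fin n) ℤ)) :
        MvPolynomial (Fin (n + 1)) ℤ →ₐ[ℤ] ℚ) = aeval (Fin.cons 1 y : Fin (n + 1) → ℚ) := by
      apply MvPolynomial.algHom_ext
      intro i
      refine Fin.cases ?_ (fun j => ?_) i
      · simp
      · simp
    have h2 := congrArg (fun φ : MvPolynomial (Fin (n + 1)) ℤ →ₐ[ℤ] ℚ => φ f) h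
    rw [← h2]
    show aeval y q = 0
    rw [hq0, map_zero]
  set F : MvPolynomial (Fin (n + 1)) ℚ := map (Int.castRingHom ℚ) f with hF
  have hFh : F.IsHomogeneous d := hf.map _
  have hF0 : X 0 * F = 0 := by
    apply MvPolynomial.funext
    intro x
    rw [map_zero, map_mul, eval_X]
    by_cases hx : x 0 = 0
    · rw [hx, zero_mul]
    · have h1 : x = (x 0) • (Fin.cons 1 (fun j => x j.succ / x 0) : Fin (n + 1) → ℚ) := by
        funext i
        refine Fin.cases ?_ (fun j => ?_) i
        · simp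
        · simp only [Pi.smul_apply, Fin.cons_succ, smul_eq_mul]
          field_simp
      have h2 : eval x F = (x 0) ^ d * eval (Fin.cons 1 (fun j => x j.succ / x 0) : Fin (n + 1) → ℚ) F := by
        conv_lhs => rw [h1]
        rw [MvPolynomial.eval_eq', MvPolynomial.eval_eq', Finset.mul_sum]
        refine Finset.sum_congr rfl fun m hm => ?_
        have h3 := hFh (mem_support_iff.1 hm)
        rw [Finsupp.weight_apply, Finsupp.sum_fintype _ _ (by simp)] at h3
        have h4 : ∑ i, m i = d := by simpa using h3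
        simp only [Pi.smul_apply, smul_eq_mul, mul_pow]
        rw [Finset.prod_mul_distrib, Finset.prod_pow_eq_pow_sum, h4]
        ring
      have h3 : eval (Fin.cons 1 (fun j => x j.succ / x 0) : Fin (n + 1) → ℚ) F = 0 := by
        rw [hF, MvPolynomial.eval_map, ← hrat (fun j => x j.succ / x 0)]
        rfl
      rw [h2, h3]
      ring
  rcases mul_eq_zero.1 hF0 with h | h
  · exact absurd h (X_ne_zero 0)
  · apply MvPolynomial.map_injective (Int.castRingHom ℚ) Int.cast_injective
    rw [map_zero]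
    exact h

/-- size of the values of a polynomial -/
lemma eval_size {m : ℕ} (R : MvPolynomial (Fin m) ℤ) : ∃ C : ℝ, 0 < C ∧ ∀ (x : Fin m → ℤ) (M : ℝ), 1 ≤ M →
    (∀ i, |(x i : ℝ)| ≤ M) → |((eval x R : ℤ) : ℝ)| ≤ C * M ^ R.totalDegree := by
  classical
  refine ⟨∑ e ∈ R.support, |((R.coeff e : ℤ) : ℝ)| + 1, by positivity, fun x M hM hx => ?_⟩
  rw [MvPolynomial.eval_eq']
  push_cast
  calc |∑ e ∈ R.support, ((R.coeff e : ℤ) : ℝ) * ∏ i, (x i : ℝ) ^ e i|
      ≤ ∑ e ∈ R.support, |((R.coeff e : ℤ) : ℝ) * ∏ i, (x i : ℝ) ^ e i| := Finset.abs_sum_le_sum_abs _ _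
    _ ≤ ∑ e ∈ R.support, |((R.coeff e : ℤ) : ℝ)| * M ^ R.totalDegree := by
        refine Finset.sum_le_sum fun e he => ?_
        rw [abs_mul]
        refine mul_le_mul_of_nonneg_left ?_ (abs_nonneg _)
        rw [Finset.abs_prod]
        calc ∏ i, |(x i : ℝ) ^ e i| ≤ ∏ i, M ^ e i := by
              refine Finset.prod_le_prod (fun _ _ => abs_nonneg _) fun i _ => ?_
              rw [abs_pow]
              exact pow_le_pow_left₀ (abs_nonneg _) (hx i) _
          _ = M ^ (∑ i, e i) := Finset.prod_pow_eq_pow_sum _ _ _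
          _ ≤ M ^ R.totalDegree := by
              apply pow_le_pow_right₀ hM
              have := MvPolynomial.le_totalDegree he
              rwa [Finsupp.sum_fintype _ _ (by simp)] at this
    _ = (∑ e ∈ R.support, |((R.coeff e : ℤ) : ℝ)|) * M ^ R.totalDegree := by rw [Finset.sum_mul]
    _ ≤ _ := by
        have : 0 ≤ M ^ R.totalDegree := by positivity
        nlinarith

end Pool.Agent.H39b
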