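import Mathlib
import Pool.Agent.H39b.Good
import Pool.Agent.H39b.Lead
import Pool.Agent.Helper112.Arith

set_option autoImplicit false

/-!
# Counting in boxes
-/

namespace Pool.Agent.H39b

open MvPolynomial Finset

variable {n : ℕ}

/-- a point of the box at which all forms are small after division by a common divisor -/
def Gd {ι : Type*} (f : ι → MvPolynomial (Fin (n + 1)) ℤ) (d N : ℕ) (a : ℝ) (x : Fin (n + 1) → ℤ) :
    Prop :=
  (∀ i, |x i| ≤ N) ∧ ∃ g : ℕ, 0 < g ∧ (∀ i, (g : ℤ) ∣ eval x (f i)) ∧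
    ∀ i, |((eval x (f i) : ℤ) : ℝ)| ≤ g * ((N : ℝ) ^ d / a)

/-- zeros of a polynomial in a box -/
lemma zeros_box {m : ℕ} (R : MvPolynomial (Fin m) ℤ) (hR : R ≠ 0) (N : ℕ) :
    (#((Fintype.piFinset fun _ : Fin m => Finset.Icc (-(N : ℤ)) N).filter
      (fun x => eval x R = 0)) : ℝ) * (2 * N + 1) ≤ R.totalDegree * (2 * N + 1) ^ m := by
  classical
  have h := MvPolynomial.schwartz_zippel_totalDegree hR (Finset.Icc (-(N : ℤ)) N)
  have hc : #(Finset.Icc (-(N : ℤ)) N) = 2 * N + 1 := by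
    rw [Int.card_Icc]; omega
  rw [hc] at h
  have h0 : (0 : NNRat) < ((2 * N + 1 : ℕ) : NNRat) := by positivity
  rw [div_le_div_iff₀ (by positivity) h0] at h
  have h2 : #((Fintype.piFinset fun _ : Fin m => Finset.Icc (-(N : ℤ)) N).filter
      (fun x => eval x R = 0)) * (2 * N + 1) ≤ R.totalDegree * (2 * N + 1) ^ m := by exact_mod_cast h
  exact_mod_cast h2

lemma card_box (m N : ℕ) : #(Fintype.piFinset fun _ : Fin m => Finset.Icc (-(N : ℤ)) N) =
    (2 * N + 1) ^ m := by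
  rw [Fintype.card_piFinset_const, Int.card_Icc]
  congr 1
  omega

set_option maxHeartbeats 1000000 in
theorem box_count {ι : Type*} [Fintype ι] (f : ι → MvPolynomial (Fin (n + 1)) ℤ) (d : ℕ) (hd : 1 ≤ d)
    (hf : ∀ i, (f i).IsHomogeneous d) (hne : ∃ i, f i ≠ 0)
    (hcop : ∀ g : MvPolynomial (Fin (n + 1)) ℤ, (∀ i, g ∣ f i) → g.totalDegree = 0)
    (ε : ℝ) (hε : 0 < ε) : ∃ C : ℝ, 0 < C ∧ ∀ (N : ℕ) (a : ℝ), 1 ≤ N → 1 ≤ a → a ≤ (N : ℝ) ^ d →
      ∀ S : Finset (Fin (n + 1) → ℤ), (∀ x ∈ S, Gd f d N a x) →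
        (#S : ℝ) ≤ C * ((N : ℝ) ^ ((n : ℝ) + 1 + ε) * a ^ (-sav d)) := by
  classical
  obtain ⟨i0, hi0⟩ := hne
  obtain ⟨v, hv⟩ := exists_dir d (f i0) (hf i0) hi0
  obtain ⟨R, u, hR0, hRu⟩ := elim f ⟨i0, hi0⟩ hcop v
  obtain ⟨C1, hC1, hsize⟩ := eval_size R
  set D := R.totalDegree with hD
  obtain ⟨C2, hC2, hdiv⟩ := Pool.Agent.Helper112.divisor_bound (ε / (D + 1)) (by positivity)
  set c0 : ℤ := eval (Fin.cons 1 v : Fin (n + 1) → ℤ) (f i0) with hc0
  set V : ℕ := 1 + ∑ j, (v j).natAbs with hV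
  have hV1 : (1 : ℝ) ≤ V := by rw [hV]; push_cast; linarith [show (0 : ℝ) ≤ ∑ j, ((v j).natAbs : ℝ) by positivity]
  -- evaluation of the elimination identity
  have helim : ∀ (t : ℤ) (x : Fin n → ℤ) (g : ℤ),
      (∀ i, g ∣ eval (Fin.cons t (fun j => x j + v j * t) : Fin (n + 1) → ℤ) (f i)) → g ∣ eval x R := by
    intro t x g hg
    have h1 := congrArg (fun q => Polynomial.eval t (Polynomial.map (eval x) q)) hRu
    simp only [Polynomial.map_C, Polynomial.eval_C, Polynomial.map_sum, Polynomial.map_mul,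
      Polynomial.eval_finsetSum, Polynomial.eval_mul, eval_sh] at h1
    rw [h1]
    exact Finset.dvd_sum fun i _ => Dvd.dvd.mul_left (hg i) _
  set C3 : ℝ := 20 * (c0.natAbs : ℝ) * (d + 1) ^ 2 with hC3
  have hC30 : 0 ≤ C3 := by positivity
  set C4 : ℝ := C2 * (C1 + 1) ^ (ε / (D + 1) : ℝ) * (V : ℝ) ^ ε with hC4
  have hC40 : 0 ≤ C4 := by positivity
  refine ⟨(3 * V) ^ n * (2 * C4 * C3 + D + 1), by positivity, ?_⟩
  intro N a hN ha haN S hS
  have hNr : (1 : ℝ) ≤ N := by exact_mod_cast hN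
  have hN0 : (0 : ℝ) < N := by linarith
  have ha0 : 0 < a := by linarith
  have hdr : (1 : ℝ) ≤ d := by exact_mod_cast hd
  set M : ℕ := V * N with hM
  have hMr : (M : ℝ) = V * N := by rw [hM]; push_cast; ring
  have hM1 : (1 : ℝ) ≤ M := by rw [hMr]; nlinarith
  set box := Fintype.piFinset fun _ : Fin n => Finset.Icc (-(M : ℤ)) M with hbox
  set π : (Fin (n + 1) → ℤ) → (Fin n → ℤ) := fun x j => x j.succ - v j * x 0 with hπ
  have hπbox : ∀ x ∈ S, π x ∈ box := by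
    intro x hx
    have h1 := (hS x hx).1
    rw [hbox, Fintype.mem_piFinset]
    intro j
    rw [Finset.mem_Icc]
    have h2 := h1 j.succ
    have h3 := h1 0
    have h4 : |v j| ≤ ((∑ j, (v j).natAbs : ℕ) : ℤ) := by
      rw [Int.abs_eq_natAbs]
      exact_mod_cast Finset.single_le_sum (f := fun j => (v j).natAbs) (fun _ _ => Nat.zero_le _) (Finset.mem_univ j)
    have h5 : |v j * x 0| ≤ ((∑ j, (v j).natAbs : ℕ) : ℤ) * N := by
      rw [abs_mul]
      exact mul_le_mul h4 h3 (abs_nonneg _) (by positivity)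
    have h6 : |x j.succ - v j * x 0| ≤ M := by
      refine (abs_sub _ _).trans ?_
      rw [hM, hV]
      push_cast at h5 ⊢
      linarith
    exact abs_le.1 h6
  -- the fibres
  set T : (Fin n → ℤ) → Finset ℤ := fun x' => (Finset.Icc (-(N : ℤ)) N).filter (fun t =>
    ∃ g : ℕ, 0 < g ∧ (g : ℤ) ∣ eval x' R ∧ (g : ℤ) ∣ (line v x' (f i0)).eval t ∧
      |(((line v x' (f i0)).eval t : ℤ) : ℝ)| ≤ g * ((N : ℝ) ^ d / a)) with hT
  have hfib : ∀ x' ∈ box, #{x ∈ S | π x = x'} ≤ #(T x') := by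
    intro x' _
    apply Finset.card_le_card_of_injOn (fun x => x 0)
    · intro x hx
      rw [Finset.mem_coe, Finset.mem_filter] at hx
      obtain ⟨hxS, hx2⟩ := hx
      obtain ⟨h1, g, hg0, hg1, hg2⟩ := hS x hxS
      have hcons : (Fin.cons (x 0) (fun j => x' j + v j * x 0) : Fin (n + 1) → ℤ) = x := by
        funext i
        refine Fin.cases ?_ (fun j => ?_) i
        · simp
        · rw [Fin.cons_succ, ← hx2]
          simp only [hπ]
          ring
      rw [Finset.mem_coe, hT, Finset.mem_filter, Finset.mem_Icc]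
      refine ⟨abs_le.1 (h1 0), g, hg0, ?_, ?_, ?_⟩
      · apply helim (x 0) x' g
        rw [hcons]
        exact hg1
      · rw [eval_line, hcons]
        exact hg1 i0
      · rw [eval_line, hcons]
        exact hg2 i0
    · intro x hx y hy hxy
      rw [Finset.mem_coe, Finset.mem_filter] at hx hy
      simp only at hxy
      have h1 : π x = π y := hx.2.trans hy.2.symm
      funext i
      refine Fin.cases hxy (fun j => ?_) i
      have h2 := congrFun h1 j
      simp only [hπ, hxy] at h2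
      linarith
  have hsum : #S = ∑ x' ∈ box, #{x ∈ S | π x = x'} := Finset.card_eq_sum_card_fiberwise hπbox
  -- generic fibres
  set Z : ℝ := (N : ℝ) * a ^ (-sav d) with hZ
  have hZ1 : 1 ≤ Z := by
    have h1 : a ^ (sav d) ≤ N := by
      have h2 : a ^ (sav d) ≤ ((N : ℝ) ^ d) ^ (sav d) := Real.rpow_le_rpow ha0.le haN (sav_pos hd).le
      rw [← Real.rpow_natCast, ← Real.rpow_mul hN0.le] at h2
      refine h2.trans ?_
      calc (N : ℝ) ^ ((d : ℝ) * sav d) ≤ (N : ℝ) ^ (1 : ℝ) := by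
            apply Real.rpow_le_rpow_of_exponent_le hNr
            have h3 := sav_le hd
            calc (d : ℝ) * sav d ≤ d * (1 / (2 * d)) := by gcongr
              _ = 1 / 2 := by field_simp
              _ ≤ 1 := by norm_num
        _ = N := Real.rpow_one _
    rw [hZ, Real.rpow_neg ha0.le, ← div_eq_mul_inv, le_div_iff₀ (Real.rpow_pos_of_pos ha0 _), one_mul]
    exact h1
  have hgen : ∀ x' ∈ box, eval x' R ≠ 0 → (#(T x') : ℝ) ≤ C4 * (N : ℝ) ^ ε * (C3 * (Z + 1)) := by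
    intro x' hx' hRx
    set r : ℕ := (eval x' R).natAbs with hr
    have hr1 : 1 ≤ r := Int.natAbs_pos.2 hRx
    have hsub : T x' ⊆ r.divisors.biUnion (fun g => (Finset.Icc (-(N : ℤ)) N).filter (fun t =>
        (g : ℤ) ∣ (line v x' (f i0)).eval t ∧
          |(((line v x' (f i0)).eval t : ℤ) : ℝ)| ≤ g * ((N : ℝ) ^ d / a))) := by
      intro t ht
      rw [hT, Finset.mem_filter] at ht
      obtain ⟨ht1, g, hg0, hg1, hg2, hg3⟩ := ht
      rw [Finset.mem_biUnion]
      refine ⟨g, ?_, ?_⟩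
      · rw [Nat.mem_divisors]
        refine ⟨?_, by omega⟩
        have := Int.natAbs_dvd_natAbs.2 hg1
        rwa [Int.natAbs_natCast] at this
      · rw [Finset.mem_filter]
        exact ⟨ht1, hg2, hg3⟩
    have hpiece : ∀ g : ℕ, (#((Finset.Icc (-(N : ℤ)) N).filter (fun t =>
        (g : ℤ) ∣ (line v x' (f i0)).eval t ∧
          |(((line v x' (f i0)).eval t : ℤ) : ℝ)| ≤ g * ((N : ℝ) ^ d / a))) : ℝ) ≤ C3 * (Z + 1) := by
      intro g
      obtain ⟨hl1, hl2⟩ := line_lead v x' d (f i0) (hf i0)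
      have h := good_count d hd (line v x' (f i0)) hl1 (by rw [hl2]; exact hv)
        ((Finset.Icc (-(N : ℤ)) N).filter (fun t =>
        (g : ℤ) ∣ (line v x' (f i0)).eval t ∧
          |(((line v x' (f i0)).eval t : ℤ) : ℝ)| ≤ g * ((N : ℝ) ^ d / a))) N g a hN ha
        (fun t ht => abs_le.2 (Finset.mem_Icc.1 (Finset.mem_filter.1 ht).1))
        (fun t ht => (Finset.mem_filter.1 ht).2.1) (fun t ht => (Finset.mem_filter.1 ht).2.2)
      rw [hl2] at h
      exact h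
    have hcard : (#(T x') : ℝ) ≤ r.divisors.card * (C3 * (Z + 1)) := by
      calc (#(T x') : ℝ) ≤ ((∑ g ∈ r.divisors, #((Finset.Icc (-(N : ℤ)) N).filter (fun t =>
        (g : ℤ) ∣ (line v x' (f i0)).eval t ∧
          |(((line v x' (f i0)).eval t : ℤ) : ℝ)| ≤ g * ((N : ℝ) ^ d / a))) : ℕ) : ℝ) := by
            exact_mod_cast (Finset.card_le_card hsub).trans Finset.card_biUnion_le
        _ ≤ ∑ _g ∈ r.divisors, C3 * (Z + 1) := by
            push_cast
            exact Finset.sum_le_sum fun g _ => hpiece g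
        _ = _ := by rw [Finset.sum_const, nsmul_eq_mul]
    refine hcard.trans ?_
    apply mul_le_mul_of_nonneg_right _ (by positivity)
    refine (hdiv r hr1).trans ?_
    have hrb : (r : ℝ) ≤ (C1 + 1) * (M : ℝ) ^ (D : ℝ) := by
      have h1 := hsize x' M hM1 (fun i => by
        rw [hbox, Fintype.mem_piFinset] at hx'
        have := abs_le.2 (Finset.mem_Icc.1 (hx' i))
        exact_mod_cast this)
      have h2 : (r : ℝ) = |((eval x' R : ℤ) : ℝ)| := by
        rw [hr, Nat.cast_natAbs, Int.cast_abs]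
      rw [h2, Real.rpow_natCast]
      refine h1.trans ?_
      gcongr
      linarith
    calc C2 * (r : ℝ) ^ (ε / (D + 1) : ℝ) ≤ C2 * ((C1 + 1) * (M : ℝ) ^ (D : ℝ)) ^ (ε / (D + 1) : ℝ) := by
          gcongr
      _ = C2 * ((C1 + 1) ^ (ε / (D + 1) : ℝ) * (M : ℝ) ^ ((D : ℝ) * (ε / (D + 1)))) := by
          rw [Real.mul_rpow (by positivity) (by positivity), ← Real.rpow_mul (by linarith)]
      _ ≤ C2 * ((C1 + 1) ^ (ε / (D + 1) : ℝ) * (M : ℝ) ^ ε) := by
          have h3 : (D : ℝ) * (ε / (D + 1)) ≤ ε := by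
            rw [mul_div_assoc', div_le_iff₀ (by positivity)]
            nlinarith
          have h4 := Real.rpow_le_rpow_of_exponent_le hM1 h3
          gcongr
      _ = C4 * (N : ℝ) ^ ε := by
          rw [hMr, Real.mul_rpow (by linarith) hN0.le, hC4]
          ring
  -- special fibres
  have hspec : ∀ x' : Fin n → ℤ, (#(T x') : ℝ) ≤ 2 * M + 1 := by
    intro x'
    have h1 : #(T x') ≤ 2 * N + 1 := by
      have h0 : #(T x') ≤ #(Finset.Icc (-(N : ℤ)) N) := Finset.card_filter_le _ _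
      rw [Int.card_Icc] at h0
      omega
    have h2 : (#(T x') : ℝ) ≤ 2 * N + 1 := by exact_mod_cast h1
    have h3 : (N : ℝ) ≤ M := by rw [hMr]; nlinarith
    linarith
  -- summation
  have hzero := zeros_box R hR0 M
  have hcardbox : (#(box) : ℝ) = (2 * M + 1) ^ n := by
    rw [hbox, card_box]
    push_cast
    ring
  have hM3 : (2 * (M : ℝ) + 1) ^ n ≤ (3 * V) ^ n * (N : ℝ) ^ n := by
    rw [← mul_pow]
    apply pow_le_pow_left₀ (by positivity)
    rw [hMr]
    nlinarith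
  have hNε : 1 ≤ (N : ℝ) ^ ε := Real.one_le_rpow hNr hε.le
  have hfinal : (#S : ℝ) ≤ (2 * (M : ℝ) + 1) ^ n * (C4 * (N : ℝ) ^ ε * (C3 * (Z + 1))) +
      D * (2 * (M : ℝ) + 1) ^ n := by
    rw [hsum]
    push_cast
    calc ∑ x' ∈ box, (#{x ∈ S | π x = x'} : ℝ) ≤ ∑ x' ∈ box, (#(T x') : ℝ) :=
          Finset.sum_le_sum fun x' hx' => by exact_mod_cast hfib x' hx'
      _ = ∑ x' ∈ box.filter (fun x' => ¬ eval x' R = 0), (#(T x') : ℝ) +
            ∑ x' ∈ box.filter (fun x' => eval x' R = 0), (#(T x') : ℝ) := by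
          rw [add_comm, Finset.sum_filter_add_sum_filter_not]
      _ ≤ ∑ _x' ∈ box.filter (fun x' => ¬ eval x' R = 0), C4 * (N : ℝ) ^ ε * (C3 * (Z + 1)) +
            ∑ _x' ∈ box.filter (fun x' => eval x' R = 0), (2 * (M : ℝ) + 1) := by
          apply add_le_add
          · refine Finset.sum_le_sum fun x' hx' => ?_
            rw [Finset.mem_filter] at hx'
            exact hgen x' hx'.1 hx'.2
          · exact Finset.sum_le_sum fun x' _ => hspec x'
      _ ≤ (2 * (M : ℝ) + 1) ^ n * (C4 * (N : ℝ) ^ ε * (C3 * (Z + 1))) + D * (2 * (M : ℝ) + 1) ^ n := by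
          rw [Finset.sum_const, Finset.sum_const, nsmul_eq_mul, nsmul_eq_mul]
          apply add_le_add
          · apply mul_le_mul_of_nonneg_right _ (by positivity)
            rw [← hcardbox]
            exact_mod_cast Finset.card_filter_le _ _
          · exact hzero
  have hexp : (N : ℝ) ^ ((n : ℝ) + 1 + ε) * a ^ (-sav d) = (N : ℝ) ^ n * (N : ℝ) ^ ε * Z := by
    rw [hZ, Real.rpow_add hN0, Real.rpow_add hN0, Real.rpow_one, Real.rpow_natCast]
    ring
  rw [hexp]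
  refine hfinal.trans ?_
  have hP0 : 0 ≤ (2 * (M : ℝ) + 1) ^ n := by positivity
  have e1 : C4 * (N : ℝ) ^ ε * (C3 * (Z + 1)) ≤ 2 * C4 * C3 * ((N : ℝ) ^ ε * Z) := by
    have : Z + 1 ≤ 2 * Z := by linarith
    calc C4 * (N : ℝ) ^ ε * (C3 * (Z + 1)) ≤ C4 * (N : ℝ) ^ ε * (C3 * (2 * Z)) := by gcongr
      _ = _ := by ring
  have e2 : (1 : ℝ) ≤ (N : ℝ) ^ ε * Z := by nlinarith
  have e3 : (D : ℝ) ≤ (D + 1) * ((N : ℝ) ^ ε * Z) := by
    have : (0 : ℝ) ≤ D := Nat.cast_nonneg _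
    nlinarith
  calc (2 * (M : ℝ) + 1) ^ n * (C4 * (N : ℝ) ^ ε * (C3 * (Z + 1))) + D * (2 * (M : ℝ) + 1) ^ n
      ≤ (2 * (M : ℝ) + 1) ^ n * (2 * C4 * C3 * ((N : ℝ) ^ ε * Z)) +
        ((D + 1) * ((N : ℝ) ^ ε * Z)) * (2 * (M : ℝ) + 1) ^ n := by gcongr
    _ = (2 * (M : ℝ) + 1) ^ n * ((2 * C4 * C3 + D + 1) * ((N : ℝ) ^ ε * Z)) := by ring
    _ ≤ ((3 * V) ^ n * (N : ℝ) ^ n) * ((2 * C4 * C3 + D + 1) * ((N : ℝ) ^ ε * Z)) := by
        apply mul_le_mul_of_nonneg_right hM3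
        have : 0 ≤ (N : ℝ) ^ ε * Z := by linarith
        positivity
    _ = _ := by ring

end Pool.Agent.H39b
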