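import Mathlib

set_option autoImplicit false

/-!
# Primitive representatives of rational points
-/

namespace Pool.Agent.H39b

open Finset

variable {n : ℕ}

/-- extraction of the content -/
lemma exists_content {m : ℕ} (y : Fin (m + 1) → ℤ) (hy : y ≠ 0) :
    ∃ (g : ℕ) (z : Fin (m + 1) → ℤ), 0 < g ∧ univ.gcd z = 1 ∧ ∀ i, y i = g * z i := by
  classical
  obtain ⟨z, hz1, hz2⟩ := Finset.extract_gcd y (univ_nonempty (α := Fin (m + 1)))
  have hg0 : univ.gcd y ≠ 0 := by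
    intro h
    apply hy
    funext i
    exact Finset.gcd_eq_zero_iff.1 h i (mem_univ i)
  have hn : (((univ.gcd y).natAbs : ℕ) : ℤ) = univ.gcd y := by
    have h1 : normalize (univ.gcd y) = univ.gcd y := Finset.normalize_gcd
    rw [← Int.abs_eq_natAbs, Int.abs_eq_normalize, h1]
  refine ⟨(univ.gcd y).natAbs, z, Int.natAbs_pos.2 hg0, hz2, fun i => ?_⟩
  rw [hn]
  exact hz1 i (mem_univ i)

/-- primitive representatives -/
lemma exists_rep (P : Projectivization ℚ (Fin (n + 1) → ℚ)) : ∃ (x : Fin (n + 1) → ℤ) (c : ℚ), c ≠ 0 ∧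
    univ.gcd x = 1 ∧ P.rep = c • (fun i => (x i : ℚ)) := by
  classical
  have hv := P.rep_nonzero
  set v := P.rep with hvdef
  obtain ⟨w, hw⟩ : ∃ w : Fin (n + 1) → ℤ, ∀ i, ((∏ j, (v j).den : ℕ) : ℚ) * v i = w i := by
    refine ⟨fun i => (∏ j ∈ univ.erase i, ((v j).den : ℤ)) * (v i).num, fun i => ?_⟩
    rw [← Finset.mul_prod_erase univ _ (mem_univ i)]
    push_cast
    have h1 := Rat.den_mul_eq_num (v i)
    rw [← h1]
    ring
  have hD : ((∏ j, (v j).den : ℕ) : ℚ) ≠ 0 := by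
    exact_mod_cast Finset.prod_ne_zero_iff.2 fun j _ => (v j).den_nz
  have hw0 : w ≠ 0 := by
    rintro rfl
    apply hv
    funext i
    have h1 := hw i
    rw [Pi.zero_apply, Int.cast_zero, mul_eq_zero] at h1
    exact h1.resolve_left hD
  obtain ⟨g, z, hg, hz1, hz2⟩ := exists_content w hw0
  have hg0 : (g : ℚ) ≠ 0 := by exact_mod_cast hg.ne'
  refine ⟨z, (g : ℚ) / ((∏ j, (v j).den : ℕ) : ℚ), div_ne_zero hg0 hD, hz1, ?_⟩
  funext i
  have h1 := hw i
  rw [hz2 i] at h1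
  push_cast at h1 ⊢
  rw [Pi.smul_apply, smul_eq_mul, div_mul_eq_mul_div, ← h1]
  push_cast at hD
  field_simp

lemma height_prim {m : ℕ} (z : Fin (m + 1) → ℤ) (hz : univ.gcd z = 1) :
    ∃ H : ℕ, 1 ≤ H ∧ Height.mulHeight (fun i => (z i : ℚ)) = H ∧ ∀ i, |z i| ≤ H := by
  have h1 := Rat.mulHeight_eq_max_abs_of_gcd_eq_one hz
  have hbdd : BddAbove (Set.range fun i => |z i|) := Set.finite_range _ |>.bddAbove
  have hle : ∀ i, |z i| ≤ ⨆ i, |z i| := fun i => le_ciSup hbdd i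
  have hnn : 0 ≤ ⨆ i, |z i| := (abs_nonneg _).trans (hle 0)
  refine ⟨(⨆ i, |z i|).toNat, ?_, ?_, fun i => ?_⟩
  · by_contra hcon
    have h0 : ⨆ i, |z i| = 0 := by omega
    have h2 : ∀ i, z i = 0 := fun i => by
      have := hle i
      rw [h0] at this
      exact abs_eq_zero.1 (le_antisymm this (abs_nonneg _))
    have h3 : univ.gcd z = 0 := Finset.gcd_eq_zero_iff.2 fun i _ => h2 i
    rw [h3] at hz
    exact zero_ne_one hz
  · have h3 : (((⨆ i, |z i|).toNat : ℕ) : ℤ) = ⨆ i, |z i| := Int.toNat_of_nonneg hnn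
    have h4 : (((⨆ i, |z i|).toNat : ℕ) : ℝ) = ((⨆ i, |z i| : ℤ) : ℝ) := by exact_mod_cast h3
    rw [h4, ← h1]
    rfl
  · have h3 : (((⨆ i, |z i|).toNat : ℕ) : ℤ) = ⨆ i, |z i| := Int.toNat_of_nonneg hnn
    rw [h3]
    exact hle i

lemma mulHeight_rep (P : Projectivization ℚ (Fin (n + 1) → ℚ)) :
    P.mulHeight = Height.mulHeight P.rep := by
  conv_lhs => rw [← P.mk_rep]
  rw [Projectivization.mulHeight_mk]

/-- homogeneous polynomials and scaling -/
lemma aeval_scale (f : MvPolynomial (Fin (n + 1)) ℤ) (d : ℕ) (hf : f.IsHomogeneous d) (c : ℚ)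
    (x : Fin (n + 1) → ℤ) :
    MvPolynomial.aeval (c • (fun i => (x i : ℚ))) f = c ^ d * ((MvPolynomial.eval x f : ℤ) : ℚ) := by
  rw [MvPolynomial.aeval_def, MvPolynomial.eval₂_eq', MvPolynomial.eval_eq']
  push_cast
  rw [Finset.mul_sum]
  refine Finset.sum_congr rfl fun m hm => ?_
  have h3 := hf (MvPolynomial.mem_support_iff.1 hm)
  rw [Finsupp.weight_apply, Finsupp.sum_fintype _ _ (by simp)] at h3
  have h4 : ∑ i, m i = d := by simpa using h3
  simp only [Pi.smul_apply, smul_eq_mul, mul_pow]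
  rw [Finset.prod_mul_distrib, Finset.prod_pow_eq_pow_sum, h4]
  simp
  ring

/-- the representative determines the point -/
lemma rep_inj {P Q : Projectivization ℚ (Fin (n + 1) → ℚ)} {x : Fin (n + 1) → ℤ} {c c' : ℚ} (hc : c ≠ 0)
    (hc' : c' ≠ 0) (h : P.rep = c • (fun i => (x i : ℚ))) (h' : Q.rep = c' • (fun i => (x i : ℚ))) : P = Q := by
  rw [← P.mk_rep, ← Q.mk_rep, Projectivization.mk_eq_mk_iff']
  refine ⟨c / c', ?_⟩
  rw [h, h', smul_smul, div_mul_cancel₀ _ hc']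

end Pool.Agent.H39b
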