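import Mathlib
import Pool.Agent.H39b.Box
import Pool.Agent.H39b.Pt

set_option autoImplicit false

/-!
# Rational points on blow-ups of the projective space: final count
-/

namespace Pool.Agent.H39b

open Finset

variable {n : ℕ}

/-- the point as seen by a rational map -/
noncomputable def img {k : ℕ} (f : Fin (k + 1) → MvPolynomial (Fin (n + 1)) ℤ)
    (P : Projectivization ℚ (Fin (n + 1) → ℚ)) : Fin (k + 1) → ℚ := fun i => MvPolynomial.aeval P.rep (f i)

/-- one rational map at one point -/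
lemma one_map {k : ℕ} (f : Fin (k + 1) → MvPolynomial (Fin (n + 1)) ℤ) (d : ℕ)
    (hf : ∀ i, (f i).IsHomogeneous d) {P : Projectivization ℚ (Fin (n + 1) → ℚ)}
    {x : Fin (n + 1) → ℤ} {c : ℚ} (hc : c ≠ 0) (hP : P.rep = c • (fun i => (x i : ℚ))) (h0 : img f P ≠ 0) :
    ∃ (g φ : ℕ), 0 < g ∧ 1 ≤ φ ∧ Height.mulHeight (img f P) = φ ∧
      (∀ i, (g : ℤ) ∣ MvPolynomial.eval x (f i)) ∧ ∀ i, |MvPolynomial.eval x (f i)| ≤ g * φ := by
  set y : Fin (k + 1) → ℤ := fun i => MvPolynomial.eval x (f i) with hy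
  have himg : img f P = c ^ d • (fun i => (y i : ℚ)) := by
    funext i
    unfold img
    rw [hP, aeval_scale (f i) d (hf i) c x]
    rfl
  have hy0 : y ≠ 0 := by
    intro h
    apply h0
    rw [himg, h]
    funext i
    simp
  obtain ⟨g, z, hg, hz1, hz2⟩ := exists_content y hy0
  obtain ⟨φ, hφ1, hφ2, hφ3⟩ := height_prim z hz1
  have hg0 : (g : ℚ) ≠ 0 := by exact_mod_cast hg.ne'
  refine ⟨g, φ, hg, hφ1, ?_, fun i => ?_, fun i => ?_⟩
  · have hyz : (fun i => (y i : ℚ)) = (g : ℚ) • (fun i => (z i : ℚ)) := by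
      funext i
      rw [hz2 i]
      simp
    rw [himg, Height.mulHeight_smul_eq_mulHeight _ (pow_ne_zero _ hc), hyz,
      Height.mulHeight_smul_eq_mulHeight _ hg0, hφ2]
  · change (g : ℤ) ∣ y i
    rw [hz2 i]
    exact Dvd.intro _ rfl
  · change |y i| ≤ g * φ
    rw [hz2 i, abs_mul, Nat.abs_cast]
    exact mul_le_mul_of_nonneg_left (hφ3 i) (by positivity)

/-- the extremal ratio -/
lemma ratio {ι : Type*} [Fintype ι] (A β : ι → ℝ) (hA : ∀ j, 0 < A j) (hβ : ∀ j, 0 ≤ β j) :
    (∏ j, A j ^ β j ≤ 1) ∨ ∃ j, 1 ≤ A j ∧ ∏ j, A j ^ β j ≤ A j ^ (∑ j, β j) := by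
  classical
  by_cases h : ∀ j, A j ≤ 1
  · left
    exact Finset.prod_le_one (fun j _ => (Real.rpow_pos_of_pos (hA j) _).le)
      fun j _ => Real.rpow_le_one (hA j).le (h j) (hβ j)
  · push Not at h
    obtain ⟨j0, hj0⟩ := h
    have : Nonempty ι := ⟨j0⟩
    obtain ⟨j1, hj1⟩ := Finite.exists_max A
    have h1 : 1 ≤ A j1 := hj0.le.trans (hj1 j0)
    right
    refine ⟨j1, h1, ?_⟩
    rw [Real.rpow_sum_of_pos (hA j1)]
    exact Finset.prod_le_prod (fun j _ => (Real.rpow_pos_of_pos (hA j) _).le)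
      fun j _ => Real.rpow_le_rpow (hA j).le (hj1 j) (hβ j)

/-- logarithms -/
lemma log_le (K ε : ℝ) (hε : 0 < ε) : ∃ C : ℝ, 0 < C ∧ ∀ T : ℝ, 1 ≤ T → K * Real.log T + 2 ≤ C * T ^ ε := by
  refine ⟨|K| / ε + 2, by positivity, fun T hT => ?_⟩
  have h1 : Real.log T ≤ T ^ ε / ε := Real.log_le_rpow_div (by linarith) hε
  have h2 : 0 ≤ Real.log T := Real.log_nonneg hT
  have h3 : 1 ≤ T ^ ε := Real.one_le_rpow hT hε.le
  calc K * Real.log T + 2 ≤ |K| * (T ^ ε / ε) + 2 * T ^ ε := by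
        have := le_abs_self K
        have h4 : K * Real.log T ≤ |K| * Real.log T := mul_le_mul_of_nonneg_right this h2
        have h5 : |K| * Real.log T ≤ |K| * (T ^ ε / ε) := mul_le_mul_of_nonneg_left h1 (abs_nonneg _)
        linarith
    _ = _ := by ring

set_option maxHeartbeats 1000000 in
theorem final {ι : Type} [Fintype ι] (k d : ι → ℕ) (hd : ∀ j, 1 ≤ d j)
    (f : ∀ j, Fin (k j + 1) → MvPolynomial (Fin (n + 1)) ℤ)
    (hf : ∀ j i, (f j i).IsHomogeneous (d j)) (hne : ∀ j, ∃ i, f j i ≠ 0)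
    (hcop : ∀ j (g : MvPolynomial (Fin (n + 1)) ℤ), (∀ i, g ∣ f j i) → g.totalDegree = 0) :
    ∃ κ : ℝ, ∀ (α : ℝ) (β : ι → ℝ), 0 < α → (∀ j, 0 ≤ β j) → κ * ∑ j, β j ≤ α →
      ∀ ε : ℝ, 0 < ε → ∃ C : ℝ, ∀ T : ℝ, 1 ≤ T →
        {P : Projectivization ℚ (Fin (n + 1) → ℚ) | (∀ j, img (f j) P ≠ 0) ∧
          P.mulHeight ^ α * ∏ j, Height.mulHeight (img (f j) P) ^ β j ≤ T}.Finite ∧
        ({P : Projectivization ℚ (Fin (n + 1) → ℚ) | (∀ j, img (f j) P ≠ 0) ∧
          P.mulHeight ^ α * ∏ j, Height.mulHeight (img (f j) P) ^ β j ≤ T}.ncard : ℝ) ≤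
          C * T ^ (((n : ℝ) + 1) / (α + ∑ j, β j * d j) + ε) := by
  classical
  refine ⟨∑ j, ((n : ℝ) + 2) / sav (d j), ?_⟩
  intro α β hα hβ hκ ε hε
  set b : ℝ := ∑ j, β j with hb
  have hb0 : 0 ≤ b := Finset.sum_nonneg fun j _ => hβ j
  set m : ℝ := α + ∑ j, β j * d j with hm
  have hsum0 : 0 ≤ ∑ j, β j * d j := Finset.sum_nonneg fun j _ => mul_nonneg (hβ j) (Nat.cast_nonneg _)
  have hαm : α ≤ m := by linarith
  have hm0 : 0 < m := by linarith
  set ε' : ℝ := min 1 (ε * m / 2) with hε'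
  have hε'0 : 0 < ε' := by positivity
  have hε'1 : ε' ≤ 1 := min_le_left _ _
  have hε'm : ε' / m ≤ ε / 2 := by
    rw [div_le_iff₀ hm0]
    calc ε' ≤ ε * m / 2 := min_le_right _ _
      _ = ε / 2 * m := by ring
  choose CB hCB0 hCB using fun j => box_count (f j) (d j) (hd j) (hf j) (hne j) (hcop j) ε' hε'0
  set Dm : ℝ := ∑ j, (d j : ℝ) with hDm
  have hDm0 : 0 ≤ Dm := by positivity
  have hdDm : ∀ j, (d j : ℝ) ≤ Dm := fun j =>
    Finset.single_le_sum (f := fun j => (d j : ℝ)) (fun _ _ => Nat.cast_nonneg _) (Finset.mem_univ j)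
  have hl2 : 0 < Real.log 2 := Real.log_pos (by norm_num)
  obtain ⟨C6, hC60, hC6⟩ := log_le (Dm / α / Real.log 2) (ε / 2) (by positivity)
  refine ⟨3 ^ (n + 1) + (∑ j, 2 * CB j) * C6, fun T hT => ?_⟩
  have hT0 : 0 < T := by linarith
  have hlT : 0 ≤ Real.log T := Real.log_nonneg hT
  set J : ℕ := ⌊Dm / α * Real.log T / Real.log 2⌋₊ with hJ
  set Nn : ℕ → ℕ := fun i => ⌊(T * 2 ^ (((i : ℝ) + 1) * b)) ^ (1 / m)⌋₊ with hNn
  set N0 : ℕ := ⌊T ^ (1 / m)⌋₊ with hN0
  set box : ℕ → Finset (Fin (n + 1) → ℤ) := fun N => Fintype.piFinset fun _ => Finset.Icc (-(N : ℤ)) N with hbox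
  set cls : ι → ℕ → Finset (Fin (n + 1) → ℤ) := fun j i =>
    if 1 ≤ Nn i ∧ ((2 : ℝ) ^ i ≤ (Nn i : ℝ) ^ (d j)) then
      (box (Nn i)).filter (fun x => Gd (f j) (d j) (Nn i) (2 ^ i) x) else ∅ with hcls
  set FT : Finset (Fin (n + 1) → ℤ) := box N0 ∪
    (univ : Finset ι).biUnion (fun j => (range (J + 1)).biUnion (fun i => cls j i)) with hFT
  set E : Set (Projectivization ℚ (Fin (n + 1) → ℚ)) := {P | (∀ j, img (f j) P ≠ 0) ∧
          P.mulHeight ^ α * ∏ j, Height.mulHeight (img (f j) P) ^ β j ≤ T} with hE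
  choose rx rc hrc hrg hrep using fun P : Projectivization ℚ (Fin (n + 1) → ℚ) => exists_rep P
  -- the main inclusion
  have hmaps : ∀ P ∈ E, rx P ∈ FT := by
    intro P hP
    obtain ⟨hP1, hP2⟩ := hP
    obtain ⟨H, hH1, hH2, hH3⟩ := height_prim (rx P) (hrg P)
    have hPH : P.mulHeight = H := by
      rw [mulHeight_rep, hrep P, Height.mulHeight_smul_eq_mulHeight _ (hrc P), hH2]
    choose g φ hg hφ1 hφ2 hφ3 hφ4 using fun j => one_map (f j) (d j) (hf j) (hrc P) (hrep P) (hP1 j)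
    rw [hPH] at hP2
    simp only [hφ2] at hP2
    have hHr : (1 : ℝ) ≤ H := by exact_mod_cast hH1
    have hH0 : (0 : ℝ) < H := by linarith
    have hφr : ∀ j, (1 : ℝ) ≤ φ j := fun j => by exact_mod_cast hφ1 j
    set A : ι → ℝ := fun j => (H : ℝ) ^ (d j) / φ j with hA
    have hA0 : ∀ j, 0 < A j := fun j => div_pos (by positivity) (by linarith [hφr j])
    have hHα : (H : ℝ) ^ α ≤ T := by
      refine le_trans ?_ hP2
      have h1 : 1 ≤ ∏ j, ((φ j : ℕ) : ℝ) ^ β j := by
        have : ∏ _j : ι, (1 : ℝ) ≤ ∏ j, ((φ j : ℕ) : ℝ) ^ β j :=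
          Finset.prod_le_prod (fun _ _ => zero_le_one) fun j _ => Real.one_le_rpow (hφr j) (hβ j)
        simpa using this
      have h2 : 0 < (H : ℝ) ^ α := Real.rpow_pos_of_pos hH0 _
      nlinarith
    have hHm : (H : ℝ) ^ m ≤ T * ∏ j, A j ^ β j := by
      have h1 : (H : ℝ) ^ m = ((H : ℝ) ^ α * ∏ j, ((φ j : ℕ) : ℝ) ^ β j) * ∏ j, A j ^ β j := by
        rw [hm, Real.rpow_add hH0, Real.rpow_sum_of_pos hH0, mul_assoc, ← Finset.prod_mul_distrib]
        congr 1
        refine Finset.prod_congr rfl fun j _ => ?_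
        rw [← Real.mul_rpow (by linarith [hφr j]) (hA0 j).le, hA]
        simp only
        rw [mul_div_cancel₀ _ (by linarith [hφr j]), ← Real.rpow_natCast, ← Real.rpow_mul hH0.le]
        congr 1
        ring
      rw [h1]
      have h2 : 0 ≤ ∏ j, A j ^ β j := Finset.prod_nonneg fun j _ => (Real.rpow_pos_of_pos (hA0 j) _).le
      exact mul_le_mul_of_nonneg_right hP2 h2
    rw [hFT, Finset.mem_union]
    rcases ratio A β hA0 hβ with h | ⟨j, hAj, h⟩
    · -- small height
      left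
      have h1 : (H : ℝ) ^ m ≤ T := by nlinarith
      have h2 : (H : ℝ) ≤ T ^ (1 / m) := by
        rw [one_div, Real.le_rpow_inv_iff_of_pos hH0.le hT0.le hm0]
        exact h1
      have h3 : H ≤ N0 := Nat.le_floor h2
      rw [hbox, Fintype.mem_piFinset]
      intro i
      rw [Finset.mem_Icc]
      have h4 := hH3 i
      have h5 : (H : ℤ) ≤ N0 := by exact_mod_cast h3
      exact abs_le.1 (h4.trans h5)
    · right
      rw [Finset.mem_biUnion]
      refine ⟨j, Finset.mem_univ j, ?_⟩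
      -- the dyadic index
      set i : ℕ := ⌊Real.log (A j) / Real.log 2⌋₊ with hi
      have hlA : 0 ≤ Real.log (A j) := Real.log_nonneg hAj
      have hi1 : (i : ℝ) ≤ Real.log (A j) / Real.log 2 := Nat.floor_le (by positivity)
      have hi2 : Real.log (A j) / Real.log 2 < i + 1 := Nat.lt_floor_add_one _
      have h2i : (2 : ℝ) ^ i ≤ A j := by
        rw [le_div_iff₀ hl2] at hi1
        rw [← Real.log_le_log_iff (by positivity) (hA0 j), Real.log_pow]
        exact hi1
      have h2i1 : A j ≤ (2 : ℝ) ^ ((i : ℝ) + 1) := by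
        rw [div_lt_iff₀ hl2] at hi2
        rw [← Real.log_le_log_iff (hA0 j) (by positivity), Real.log_rpow (by norm_num)]
        exact hi2.le
      have hAH : A j ≤ (H : ℝ) ^ (d j) := by
        rw [hA]
        exact div_le_self (by positivity) (hφr j)
      have hHN : H ≤ Nn i := by
        apply Nat.le_floor
        rw [one_div, Real.le_rpow_inv_iff_of_pos hH0.le (by positivity) hm0]
        calc (H : ℝ) ^ m ≤ T * ∏ j, A j ^ β j := hHm
          _ ≤ T * A j ^ b := by gcongr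
          _ ≤ T * ((2 : ℝ) ^ ((i : ℝ) + 1)) ^ b := by
              have := hA0 j
              gcongr
          _ = T * 2 ^ (((i : ℝ) + 1) * b) := by rw [← Real.rpow_mul (by norm_num)]
      have hHNr : (H : ℝ) ≤ Nn i := by exact_mod_cast hHN
      rw [Finset.mem_biUnion]
      refine ⟨i, ?_, ?_⟩
      · rw [Finset.mem_range, Nat.lt_succ_iff]
        apply Nat.floor_le_floor
        apply div_le_div_of_nonneg_right _ hl2.le
        have h1 : Real.log (A j) ≤ d j * Real.log H := by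
          rw [← Real.log_pow]
          exact Real.log_le_log (hA0 j) hAH
        have h2 : α * Real.log H ≤ Real.log T := by
          rw [← Real.log_rpow hH0]
          exact Real.log_le_log (Real.rpow_pos_of_pos hH0 _) hHα
        have h3 : Real.log H ≤ Real.log T / α := by
          rw [le_div_iff₀ hα]
          linarith
        have h4 : 0 ≤ Real.log T / α := by positivity
        calc Real.log (A j) ≤ d j * Real.log H := h1
          _ ≤ d j * (Real.log T / α) := by gcongr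
          _ ≤ Dm * (Real.log T / α) := by
              have := hdDm j
              gcongr
          _ = Dm / α * Real.log T := by ring
      · rw [hcls]
        simp only
        rw [if_pos]
        · rw [Finset.mem_filter]
          have hxN : ∀ l, |rx P l| ≤ (Nn i : ℤ) := fun l => by
            have h4 := hH3 l
            have h5 : (H : ℤ) ≤ Nn i := by exact_mod_cast hHN
            exact h4.trans h5
          refine ⟨?_, hxN, g j, hg j, hφ3 j, fun l => ?_⟩
          · rw [hbox, Fintype.mem_piFinset]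
            intro l
            rw [Finset.mem_Icc]
            exact abs_le.1 (hxN l)
          · have h1 : (|((MvPolynomial.eval (rx P) (f j l) : ℤ) : ℝ)|) ≤ g j * φ j := by
              exact_mod_cast hφ4 j l
            refine h1.trans ?_
            apply mul_le_mul_of_nonneg_left _ (Nat.cast_nonneg _)
            rw [le_div_iff₀ (by positivity)]
            have h2 : (φ j : ℝ) * A j = (H : ℝ) ^ (d j) := by
              rw [hA]
              simp only
              rw [mul_div_cancel₀ _ (by linarith [hφr j])]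
            calc (φ j : ℝ) * 2 ^ i ≤ φ j * A j := by gcongr
              _ = (H : ℝ) ^ (d j) := h2
              _ ≤ (Nn i : ℝ) ^ (d j) := pow_le_pow_left₀ hH0.le hHNr _
        · refine ⟨hH1.trans hHN, ?_⟩
          calc (2 : ℝ) ^ i ≤ A j := h2i
            _ ≤ (H : ℝ) ^ (d j) := hAH
            _ ≤ (Nn i : ℝ) ^ (d j) := pow_le_pow_left₀ hH0.le hHNr _
  have hinj : Set.InjOn rx E := by
    intro P _ Q _ hPQ
    have h1 := hrep P
    have h2 := hrep Q
    rw [hPQ] at h1
    exact rep_inj (hrc P) (hrc Q) h1 h2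
  have hfin : E.Finite := Set.Finite.of_finite_image
    ((FT.finite_toSet).subset (by
      rintro _ ⟨P, hP, rfl⟩
      exact hmaps P hP)) hinj
  refine ⟨hfin, ?_⟩
  have hncard : E.ncard ≤ #FT := by
    rw [← hinj.ncard_image, ← Set.ncard_coe_finset FT]
    apply Set.ncard_le_ncard
    · rintro _ ⟨P, hP, rfl⟩
      exact hmaps P hP
    · exact FT.finite_toSet
  -- sizes of the classes
  have hTm1 : 1 ≤ T ^ (1 / m) := Real.one_le_rpow hT (by positivity)
  have hcase0 : (#(box N0) : ℝ) ≤ 3 ^ (n + 1) * T ^ (((n : ℝ) + 1) / m) := by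
    rw [hbox]
    simp only
    rw [card_box]
    push_cast
    have h1 : (N0 : ℝ) ≤ T ^ (1 / m) := Nat.floor_le (by positivity)
    calc (2 * (N0 : ℝ) + 1) ^ (n + 1) ≤ (3 * T ^ (1 / m)) ^ (n + 1) := by
          apply pow_le_pow_left₀ (by positivity)
          linarith
      _ = 3 ^ (n + 1) * T ^ (((n : ℝ) + 1) / m) := by
          rw [mul_pow]
          congr 1
          rw [← Real.rpow_natCast, ← Real.rpow_mul hT0.le]
          congr 1
          push_cast
          ring
  have hclass : ∀ j i, (#(cls j i) : ℝ) ≤ 2 * CB j * T ^ (((n : ℝ) + 1 + ε') / m) := by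
    intro j i
    rw [hcls]
    simp only
    split_ifs with hcond
    · have hS := hCB j (Nn i) (2 ^ i) hcond.1 (one_le_pow₀ (by norm_num)) hcond.2
        ((box (Nn i)).filter (fun x => Gd (f j) (d j) (Nn i) (2 ^ i) x))
        (fun x hx => (Finset.mem_filter.1 hx).2)
      refine hS.trans ?_
      have hs0 := sav_pos (hd j)
      have hq0 : 0 < ((n : ℝ) + 1 + ε') := by positivity
      have hNle : (Nn i : ℝ) ≤ (T * 2 ^ (((i : ℝ) + 1) * b)) ^ (1 / m) := Nat.floor_le (by positivity)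
      have h1 : (Nn i : ℝ) ^ ((n : ℝ) + 1 + ε') ≤
          T ^ (((n : ℝ) + 1 + ε') / m) * 2 ^ (((i : ℝ) + 1) * (b * ((n : ℝ) + 1 + ε') / m)) := by
        calc (Nn i : ℝ) ^ ((n : ℝ) + 1 + ε') ≤
            ((T * 2 ^ (((i : ℝ) + 1) * b)) ^ (1 / m)) ^ ((n : ℝ) + 1 + ε') :=
              Real.rpow_le_rpow (Nat.cast_nonneg _) hNle hq0.le
          _ = (T * 2 ^ (((i : ℝ) + 1) * b)) ^ (((n : ℝ) + 1 + ε') / m) := by
              rw [← Real.rpow_mul (by positivity)]
              congr 1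
              ring
          _ = _ := by
              rw [Real.mul_rpow hT0.le (by positivity), ← Real.rpow_mul (by norm_num)]
              congr 2
              ring
      have hexp : b * ((n : ℝ) + 1 + ε') / m ≤ sav (d j) := by
        rw [div_le_iff₀ hm0]
        have h2 : ((n : ℝ) + 2) / sav (d j) * b ≤ m := by
          refine le_trans ?_ (hκ.trans hαm)
          apply mul_le_mul_of_nonneg_right _ hb0
          exact Finset.single_le_sum (f := fun j => ((n : ℝ) + 2) / sav (d j))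
            (fun l _ => by
              have := sav_pos (hd l)
              positivity) (Finset.mem_univ j)
        have h3 : sav (d j) * (((n : ℝ) + 2) / sav (d j) * b) = ((n : ℝ) + 2) * b := by field_simp
        have h4 := mul_le_mul_of_nonneg_left h2 hs0.le
        rw [h3] at h4
        have h5 : b * ((n : ℝ) + 1 + ε') ≤ ((n : ℝ) + 2) * b := by nlinarith
        linarith
      have hsle : sav (d j) ≤ 1 := by
        refine (sav_le (hd j)).trans ?_
        have : (1 : ℝ) ≤ d j := by exact_mod_cast hd j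
        rw [div_le_one (by positivity)]
        linarith
      have h2 : (2 : ℝ) ^ (((i : ℝ) + 1) * (b * ((n : ℝ) + 1 + ε') / m)) * ((2 : ℝ) ^ i) ^ (-sav (d j)) ≤ 2 := by
        rw [← Real.rpow_natCast, ← Real.rpow_mul (by norm_num), ← Real.rpow_add (by norm_num)]
        calc (2 : ℝ) ^ (((i : ℝ) + 1) * (b * ((n : ℝ) + 1 + ε') / m) + (i : ℝ) * -sav (d j)) ≤ 2 ^ (1 : ℝ) := by
              apply Real.rpow_le_rpow_of_exponent_le (by norm_num)
              have hi0 : (0 : ℝ) ≤ i := Nat.cast_nonneg _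
              nlinarith
          _ = 2 := Real.rpow_one _
      have hT' : 0 ≤ T ^ (((n : ℝ) + 1 + ε') / m) := by positivity
      calc CB j * ((Nn i : ℝ) ^ ((n : ℝ) + 1 + ε') * ((2 : ℝ) ^ i) ^ (-sav (d j)))
          ≤ CB j * ((T ^ (((n : ℝ) + 1 + ε') / m) * 2 ^ (((i : ℝ) + 1) * (b * ((n : ℝ) + 1 + ε') / m))) *
              ((2 : ℝ) ^ i) ^ (-sav (d j))) := by
            have := (hCB0 j).le
            gcongr
        _ = CB j * (T ^ (((n : ℝ) + 1 + ε') / m) *
            ((2 : ℝ) ^ (((i : ℝ) + 1) * (b * ((n : ℝ) + 1 + ε') / m)) * ((2 : ℝ) ^ i) ^ (-sav (d j)))) := by ring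
        _ ≤ CB j * (T ^ (((n : ℝ) + 1 + ε') / m) * 2) := by
            have := (hCB0 j).le
            gcongr
        _ = _ := by ring
    · rw [Finset.card_empty, Nat.cast_zero]
      have := (hCB0 j).le
      positivity
  have hJ1 : ((J : ℝ) + 1) ≤ C6 * T ^ (ε / 2) := by
    have h1 : (J : ℝ) ≤ Dm / α * Real.log T / Real.log 2 := Nat.floor_le (by positivity)
    have h2 := hC6 T hT
    have h3 : Dm / α / Real.log 2 * Real.log T = Dm / α * Real.log T / Real.log 2 := by ring
    linarith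
  have hunion : (#FT : ℝ) ≤ 3 ^ (n + 1) * T ^ (((n : ℝ) + 1) / m) +
      ∑ j, ((J : ℝ) + 1) * (2 * CB j * T ^ (((n : ℝ) + 1 + ε') / m)) := by
    have h1 : #FT ≤ #(box N0) + ∑ j, ∑ i ∈ range (J + 1), #(cls j i) := by
      rw [hFT]
      refine (Finset.card_union_le _ _).trans ?_
      apply Nat.add_le_add_left
      refine Finset.card_biUnion_le.trans ?_
      exact Finset.sum_le_sum fun j _ => Finset.card_biUnion_le
    have h2 : (#FT : ℝ) ≤ (#(box N0) : ℝ) + ∑ j, ∑ i ∈ range (J + 1), (#(cls j i) : ℝ) := by exact_mod_cast h1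
    refine h2.trans (add_le_add hcase0 ?_)
    refine Finset.sum_le_sum fun j _ => ?_
    calc ∑ i ∈ range (J + 1), (#(cls j i) : ℝ) ≤ ∑ _i ∈ range (J + 1), 2 * CB j * T ^ (((n : ℝ) + 1 + ε') / m) :=
          Finset.sum_le_sum fun i _ => hclass j i
      _ = ((J : ℝ) + 1) * (2 * CB j * T ^ (((n : ℝ) + 1 + ε') / m)) := by
          rw [Finset.sum_const, Finset.card_range, nsmul_eq_mul]
          push_cast
          ring
  have he1 : T ^ (((n : ℝ) + 1) / m) ≤ T ^ (((n : ℝ) + 1) / m + ε) :=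
    Real.rpow_le_rpow_of_exponent_le hT (by linarith)
  have he2 : T ^ (ε / 2) * T ^ (((n : ℝ) + 1 + ε') / m) ≤ T ^ (((n : ℝ) + 1) / m + ε) := by
    rw [← Real.rpow_add hT0]
    apply Real.rpow_le_rpow_of_exponent_le hT
    have : ((n : ℝ) + 1 + ε') / m = ((n : ℝ) + 1) / m + ε' / m := by ring
    linarith
  calc (E.ncard : ℝ) ≤ #FT := by exact_mod_cast hncard
    _ ≤ 3 ^ (n + 1) * T ^ (((n : ℝ) + 1) / m) +
      ∑ j, ((J : ℝ) + 1) * (2 * CB j * T ^ (((n : ℝ) + 1 + ε') / m)) := hunion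
    _ ≤ 3 ^ (n + 1) * T ^ (((n : ℝ) + 1) / m + ε) + ∑ j, 2 * CB j * C6 * T ^ (((n : ℝ) + 1) / m + ε) := by
        apply add_le_add
        · gcongr
        · refine Finset.sum_le_sum fun j _ => ?_
          have h0 := (hCB0 j).le
          calc ((J : ℝ) + 1) * (2 * CB j * T ^ (((n : ℝ) + 1 + ε') / m))
              ≤ (C6 * T ^ (ε / 2)) * (2 * CB j * T ^ (((n : ℝ) + 1 + ε') / m)) := by gcongr
            _ = 2 * CB j * C6 * (T ^ (ε / 2) * T ^ (((n : ℝ) + 1 + ε') / m)) := by ring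
            _ ≤ _ := by gcongr
    _ = _ := by
        rw [← Finset.sum_mul, ← Finset.sum_mul]
        ring

end Pool.Agent.H39b
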